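import Pool.Agent.TriGrow.Step

/-!
# A template with 4 ordinary colours and 118 residues

`Γ = ℤ⁴`, the residue of `(x, y, z, w)` is `2x + 21y + 28z + 61w mod 118`, and `w` is the charge.
-/

namespace Pool.Agent.TriGrow.Cert118

open Sum

abbrev Gam := ℤ × ℤ × ℤ × ℤ

/-- The residue of a vector. -/
def res (g : Gam) : ℕ := ((2 * g.1 + 21 * g.2.1 + 28 * g.2.2.1 + 61 * g.2.2.2) % 118).toNat

def M0 : ℕ := 0xc182060c18206083020c183020c18
def M1 : ℕ := 0x200015002a280155400a2a00540002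
def M2 : ℕ := 0x7c000005550000555000001f000
def MS : ℕ := 0x12a00a950000a8000a800054a802a5
def MP : ℕ := 0x140000a140000a000000000000000
def Ax : ℕ := 0x30008181000808008000040800204
def Bx : ℕ := 0x10200081000008008080040c080060
def Ay : ℕ := 0x3e00000140000000a800000a80000
def By : ℕ := 0xa800000a800000014000003e0
def Az : ℕ := 0x140000a000000000a8000540002a0
def Bz : ℕ := 0x2a000150000a80000000028000140
def Aw : ℕ := 0x140000a140000a000000000000000
def Bw : ℕ := 0x280001428000140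
def ET : ℕ := 0x41249229037246e092481b8c231826444c84c1037184a310389071b10426425484870a0e36249208dc91b122924904

/-- The type of a residue: 0, 1, 2 the sum-free classes, 3 the cube sums `S`, 4 the set `P`,
5 the set `-P`. -/
def ty (r : ℕ) : ℕ :=
  if M0.testBit r then 0 else if M1.testBit r then 1 else if M2.testBit r then 2
  else if MS.testBit r then 3 else if MP.testBit r then 4 else 5

def bz (A B r : ℕ) : ℤ := if A.testBit r then 1 else if B.testBit r then -1 else 0

/-- The canonical lift of a residue of type 3, 4, 5. -/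
def gam (r : ℕ) : Gam := (bz Ax Bx r, bz Ay By r, bz Az Bz r, bz Aw Bw r)

/-- The label stored at a box index. -/
def dig (p : ℕ) : ℕ := (ET >>> (3 * p)) % 8

/-- The vector of a box index. -/
def vec (p : ℕ) : Gam := ((p % 5 : ℕ) - 2, (p / 5 % 5 : ℕ) - 2, (p / 25 : ℕ) - 2, 0)

/-- The exceptional label of a vector (4 if there is none). -/
def eL (g : Gam) : ℕ :=
  if g.2.2.2 = 0 ∧ -2 ≤ g.1 ∧ g.1 ≤ 2 ∧ -2 ≤ g.2.1 ∧ g.2.1 ≤ 2 ∧ -2 ≤ g.2.2.1 ∧ g.2.2.1 ≤ 2 then
    dig ((g.1 + 2) + 5 * (g.2.1 + 2) + 25 * (g.2.2.1 + 2)).toNat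
  else 4

/-- The default label, from the type of the residue and the charge. -/
def dl (t : ℕ) (w : ℤ) : ℕ :=
  if t < 3 then t else if t = 3 then 4 else if t = 4 then (if 1 ≤ w then 3 else 4)
  else (if w ≤ -1 then 3 else 4)

/-- The label of a vector inside an orbit; 4 means special. -/
def nl (g : Gam) : ℕ := if eL g < 4 then eL g else dl (ty (res g)) g.2.2.2

/-- The label of a vector between orbits; 4 means special. -/
def ml (g : Gam) : ℕ := if ty (res g) < 3 then ty (res g) else if ty (res g) = 5 then 3 else 4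

def n (g : Gam) : Fin 4 ⊕ Gam := if h : nl g < 4 then inl ⟨nl g, h⟩ else inr (g - gam (res g))

def m (g : Gam) : Fin 4 ⊕ Gam := if h : ml g < 4 then inl ⟨ml g, h⟩ else inr (g - gam (res g))

/-- sup norm -/
def N (g : Gam) : ℕ := max (max g.1.natAbs g.2.1.natAbs) (max g.2.2.1.natAbs g.2.2.2.natAbs)

/-- The base colouring. -/
def lvl (g : Gam) : ℕ :=
  if g.1 ≠ 0 then 4 * Nat.log 2 g.1.natAbs
  else if g.2.1 ≠ 0 then 4 * Nat.log 2 g.2.1.natAbs + 1
  else if g.2.2.1 ≠ 0 then 4 * Nat.log 2 g.2.2.1.natAbs + 2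
  else 4 * Nat.log 2 g.2.2.2.natAbs + 3

def cls (g : Gam) : ℕ := (g.1 % 3).toNat + 3 * (g.2.1 % 3).toNat + 9 * (g.2.2.1 % 3).toNat

def b (g : Gam) : ℕ :=
  if g.2.2.2 = -1 then cls g else if g.2.2.2 = 1 then cls (-g) else 27 + lvl g

/-! ## Finite checks -/

set_option maxRecDepth 100000
set_option synthInstance.maxSize 2000

/-- (sum-free) the classes and `±P` are sum-free. -/
theorem chk_cls : ∀ p < 118, ∀ q < 118, ty p ≠ 3 → ty q = ty p → ty ((p + q) % 118) ≠ ty p := by
  decide +kernel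

theorem chk_add : ∀ p < 118, ∀ q < 118, 3 ≤ ty p → (ty q = 3 ∨ ty q = 4) →
    (ty ((p + q) % 118) = 3 ∨ ty ((p + q) % 118) = 4) →
    gam ((p + q) % 118) = gam p + gam q := by
  decide +kernel

theorem chk_PN : ∀ p < 118, ∀ q < 118, ty p = 4 → ty q = 5 → ty ((p + q) % 118) ≠ 5 := by
  decide +kernel

/-- the coordinates are not all divisible by 3 -/
def kap (g : Gam) : Prop := ¬ (g.1 % 3 = 0 ∧ g.2.1 % 3 = 0 ∧ g.2.2.1 % 3 = 0)

instance : DecidablePred kap := fun g => by unfold kap; infer_instance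

theorem chk_spec : ∀ p < 118, ∀ q < 118, 3 ≤ ty p → 3 ≤ ty q → 3 ≤ ty ((p + q) % 118) →
    gam ((p + q) % 118) = gam p + gam q ∨
    (((ty p = 4 ∧ ty q = 4 ∧ ty ((p + q) % 118) = 5) ∨
      (ty p = 5 ∧ ty q = 5 ∧ ty ((p + q) % 118) = 4)) ∧
      kap (gam p + gam q - gam ((p + q) % 118))) := by
  decide +kernel

/-- the type of `-r` -/
def tneg (t : ℕ) : ℕ := if t = 4 then 5 else if t = 5 then 4 else t

theorem chk_neg : ∀ p < 118, ty ((118 - p) % 118) = tneg (ty p) ∧
    (3 ≤ ty p → gam ((118 - p) % 118) = - gam p) := by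
  decide +kernel

theorem chk_gam : ∀ p < 118, 3 ≤ ty p → res (gam p) = p ∧ N (gam p) ≤ 1 ∧
    (ty p = 3 → (gam p).2.2.2 = 0) ∧ (ty p = 4 → (gam p).2.2.2 = 1) ∧
    (ty p = 5 → (gam p).2.2.2 = -1) := by
  decide +kernel

theorem chk_zero : ty 0 = 3 ∧ gam 0 = 0 := by decide +kernel

/-- nonzero canonical lifts carry an exceptional label -/
theorem chk_lift : ∀ p < 118, ty p = 3 → p ≠ 0 → eL (gam p) < 4 := by
  decide +kernel

theorem chk_eneg : ∀ p < 125, eL (-(vec p)) = eL (vec p) := by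
  decide +kernel

/-- no exceptional vector has residue 0 -/
theorem chk_eker : ∀ p < 125, eL (vec p) < 4 → res (vec p) ≠ 0 := by
  decide +kernel

/-- exceptional labels against the classes -/
theorem chk_ecls : ∀ p < 125, eL (vec p) < 3 → ∀ q < 118, ty q = eL (vec p) →
    ty ((res (vec p) + q) % 118) ≠ eL (vec p) := by
  decide +kernel

theorem chk_e3 : ∀ p < 125, eL (vec p) = 3 → ∀ q < 118,
    (ty q = 5 → ty ((res (vec p) + q) % 118) ≠ 5) ∧
    (ty q = 4 → ty ((res (vec p) + q) % 118) ≠ 4) := by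
  decide +kernel

theorem chk_ee : ∀ p < 125, eL (vec p) < 4 → ∀ q < 125, eL (vec q) = eL (vec p) →
    vec p + vec q ≠ 0 → nl (vec p + vec q) ≠ eL (vec p) := by
  decide +kernel

end Pool.Agent.TriGrow.Cert118
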