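import Mathlib

/-!
# The multicolour Ramsey number of the triangle
-/

namespace Pool.Agent.TriGrow

/-- Every colouring of the edges of the complete graph on `N` vertices with `q` colours has a
monochromatic triangle. (A colouring is a function on unordered pairs of vertices; its values at
the degenerate pairs `s(x, x)` play no role.) -/
def Forces (q N : ℕ) : Prop :=
  ∀ c : Sym2 (Fin N) → Fin q, ∃ x y z : Fin N, x ≠ y ∧ y ≠ z ∧ x ≠ z ∧
    c s(x, y) = c s(y, z) ∧ c s(x, y) = c s(x, z)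

/-- The `q`-colour Ramsey number of the triangle, `r(3; q)`: the least `N` such that every
colouring of the edges of `K_N` with `q` colours has a monochromatic triangle. -/
noncomputable def r3 (q : ℕ) : ℕ := sInf {N | Forces q N}

/-- Finiteness, in a relative form. -/
theorem ramsey_aux (q : ℕ) : ∃ N : ℕ, ∀ (V : Type) (S : Finset V) (K : Finset ℕ)
    (c : V → V → ℕ), (∀ x y, c x y = c y x) → K.card = q →
    (∀ x ∈ S, ∀ y ∈ S, x ≠ y → c x y ∈ K) → N ≤ S.card →
    ∃ x y z : V, x ≠ y ∧ y ≠ z ∧ x ≠ z ∧ c x y = c y z ∧ c x y = c x z := by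
  classical
  induction q with
  | zero =>
    refine ⟨2, fun V S K c _ hK h hS => ?_⟩
    obtain ⟨x, hx, y, hy, hxy⟩ := Finset.one_lt_card.1 (show 1 < S.card by omega)
    have := h x hx y hy hxy
    rw [Finset.card_eq_zero.1 hK] at this
    simp at this
  | succ q ih =>
    obtain ⟨N, hN⟩ := ih
    refine ⟨(q + 1) * N + 2, fun V S K c hc hK h hS => ?_⟩
    obtain ⟨v, hv⟩ : S.Nonempty := Finset.card_pos.1 (by omega)
    have hcard : (S.erase v).card = S.card - 1 := Finset.card_erase_of_mem hv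
    have hmaps : ∀ x ∈ S.erase v, c v x ∈ K := fun x hx =>
      h v hv x (Finset.mem_of_mem_erase hx) (Finset.ne_of_mem_erase hx).symm
    obtain ⟨i, hi, hfib⟩ := Finset.exists_lt_card_fiber_of_mul_lt_card_of_maps_to (n := N) hmaps
      (by rw [hK, hcard]; omega)
    by_cases hex : ∃ x ∈ S.erase v, ∃ y ∈ S.erase v, x ≠ y ∧ c v x = i ∧ c v y = i ∧ c x y = i
    · obtain ⟨x, hx, y, hy, hxy, h1, h2, h3⟩ := hex
      exact ⟨v, x, y, (Finset.ne_of_mem_erase hx).symm, hxy, (Finset.ne_of_mem_erase hy).symm,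
        by rw [h1, h3], by rw [h1, h2]⟩
    · push Not at hex
      refine hN V ((S.erase v).filter (fun x => c v x = i)) (K.erase i) c hc
        (by rw [Finset.card_erase_of_mem hi]; omega) ?_ hfib.le
      intro x hx y hy hxy
      rw [Finset.mem_filter] at hx hy
      refine Finset.mem_erase.2 ⟨?_, ?_⟩
      · exact hex x hx.1 y hy.1 hxy hx.2 hy.2
      · exact h x (Finset.mem_of_mem_erase hx.1) y (Finset.mem_of_mem_erase hy.1) hxy

theorem forces_nonempty (q : ℕ) : {N | Forces q N}.Nonempty := by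
  obtain ⟨N, hN⟩ := ramsey_aux q
  refine ⟨N, fun c => ?_⟩
  obtain ⟨x, y, z, h1, h2, h3, h4, h5⟩ := hN (Fin N) Finset.univ (Finset.range q)
    (fun x y => (c s(x, y) : ℕ)) (fun x y => by rw [Sym2.eq_swap]) (by simp)
    (fun x _ y _ _ => by simp) (by simp)
  exact ⟨x, y, z, h1, h2, h3, Fin.ext h4, Fin.ext h5⟩

theorem Forces.mono {q N N' : ℕ} (h : Forces q N) (hN : N ≤ N') : Forces q N' := by
  intro c
  obtain ⟨x, y, z, h1, h2, h3, h4, h5⟩ := h (fun e => c (e.map (Fin.castLE hN)))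
  have inj := Fin.castLE_injective hN
  refine ⟨Fin.castLE hN x, Fin.castLE hN y, Fin.castLE hN z, fun h => h1 (inj h),
    fun h => h2 (inj h), fun h => h3 (inj h), ?_, ?_⟩
  · simpa using h4
  · simpa using h5

theorem Forces.anti {q q' N : ℕ} (h : Forces q' N) (hq : q ≤ q') : Forces q N := by
  intro c
  obtain ⟨x, y, z, h1, h2, h3, h4, h5⟩ := h (fun e => Fin.castLE hq (c e))
  exact ⟨x, y, z, h1, h2, h3, Fin.castLE_injective hq h4, Fin.castLE_injective hq h5⟩

theorem lt_r3_of_not_forces {q N : ℕ} (h : ¬ Forces q N) : N < r3 q := by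
  have h1 : Forces q (r3 q) := Nat.sInf_mem (forces_nonempty q)
  by_contra hcon
  exact h (h1.mono (not_lt.1 hcon))

theorem forces_r3 (q : ℕ) : Forces q (r3 q) := Nat.sInf_mem (forces_nonempty q)

theorem r3_mono {q q' : ℕ} (h : q ≤ q') : r3 q ≤ r3 q' :=
  Nat.sInf_le ((forces_r3 q').anti h)

/-- A triangle-free colouring of any finite type gives a lower bound. -/
theorem lt_r3 {q : ℕ} {X : Type} [Fintype X] (f : X → X → ℕ)
    (hq : ∀ x y, x ≠ y → f x y < q) (hs : ∀ x y, x ≠ y → f y x = f x y)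
    (ht : ∀ x y z, x ≠ y → y ≠ z → x ≠ z → ¬ (f x y = f y z ∧ f x y = f x z))
    (hq0 : 0 < q) : Fintype.card X < r3 q := by
  classical
  apply lt_r3_of_not_forces
  intro hF
  let e := (Fintype.equivFin X).symm
  let g : Fin (Fintype.card X) → Fin (Fintype.card X) → Fin q := fun x y =>
    if h : e x ≠ e y then ⟨f (e x) (e y), hq _ _ h⟩ else ⟨0, hq0⟩
  have gs : ∀ x y, g x y = g y x := by
    intro x y
    by_cases h : e x ≠ e y
    · simp only [g, dif_pos h, dif_pos h.symm]
      apply Fin.ext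
      exact hs _ _ h.symm
    · simp only [g, dif_neg h, dif_neg (fun h' => h (Ne.symm h'))]
  obtain ⟨x, y, z, h1, h2, h3, h4, h5⟩ := hF (Sym2.lift ⟨g, gs⟩)
  have k1 : e x ≠ e y := fun h => h1 (e.injective h)
  have k2 : e y ≠ e z := fun h => h2 (e.injective h)
  have k3 : e x ≠ e z := fun h => h3 (e.injective h)
  simp only [Sym2.lift_mk, g, dif_pos k1, dif_pos k2, dif_pos k3, Fin.mk.injEq] at h4 h5
  exact ht _ _ _ k1 k2 k3 ⟨h4, h5⟩

end Pool.Agent.TriGrow
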