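import Pool.Agent.TriGrow.Step4
import Pool.Agent.TriGrow.Ramsey

/-!
# A template with `4 ^ n` classes and `n + log₂ n + 1` colours

`Γ = Θ = ℤ^n`, `ι t = 4 t`, and the transversal is `{0, 1, 2, 3}^n`.
-/

namespace Pool.Agent.TriGrow.Four

open Sum Finset

variable {n : ℕ}

/-! ### The first element of a set of coordinates -/

/-- The position of the least element (and `n` for the empty set). -/
def first (s : Finset (Fin n)) : ℕ := if h : s.Nonempty then (s.min' h : ℕ) else n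

lemma first_eq_iff {s : Finset (Fin n)} {j : Fin n} :
    first s = j ↔ j ∈ s ∧ ∀ h ∈ s, j ≤ h := by
  unfold first
  split_ifs with hs
  · constructor
    · intro h
      have : s.min' hs = j := Fin.ext h
      subst this
      exact ⟨s.min'_mem hs, fun x hx => s.min'_le x hx⟩
    · rintro ⟨h1, h2⟩
      have := le_antisymm (s.min'_le j h1) (h2 _ (s.min'_mem hs))
      rw [this]
  · constructor
    · intro h
      have := j.2
      omega
    · rintro ⟨h1, -⟩
      exact absurd ⟨j, h1⟩ hs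

lemma first_lt {s : Finset (Fin n)} (h : s.Nonempty) : first s < n := by
  unfold first
  rw [dif_pos h]
  exact (s.min' h).2

lemma exists_first {s : Finset (Fin n)} (h : s.Nonempty) :
    ∃ j : Fin n, first s = j ∧ j ∈ s ∧ ∀ h ∈ s, j ≤ h :=
  ⟨⟨first s, first_lt h⟩, rfl, first_eq_iff.1 rfl⟩

/-! ### The label of a pair of neighbouring blocks -/

/-- The label when one side is fully exposed. -/
def g (S F : Finset (Fin n)) : ℕ :=
  if F = S then first S else if first F = first S then first (S \ F)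
  else if F = ∅ then n + Nat.log 2 S.card else first F

/-- The label of a pair of points in neighbouring blocks: `S` is the set of coordinates where
the blocks differ, `E, F ⊆ S` are the sets of exposed coordinates of the two points. -/
def L (S E F : Finset (Fin n)) : Option ℕ :=
  if E = S then some (g S F) else if F = S then some (g S E) else if E = F then none
  else some (first (symmDiff E F))

lemma L_symm (S E F : Finset (Fin n)) : L S E F = L S F E := by
  unfold L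
  by_cases h1 : E = S
  · by_cases h2 : F = S
    · subst h1; subst h2; rfl
    · rw [if_pos h1, if_neg h2, if_pos h1]
  · by_cases h2 : F = S
    · rw [if_neg h1, if_pos h2, if_pos h2]
    · rw [if_neg h1, if_neg h2, if_neg h2, if_neg h1]
      by_cases h3 : E = F
      · rw [if_pos h3, if_pos h3.symm]
      · rw [if_neg h3, if_neg (Ne.symm h3), symmDiff_comm]

lemma g_spec {S F : Finset (Fin n)} (hS : S.Nonempty) (hF : F ⊆ S) {j : Fin n}
    (h : g S F = j) : j ∈ S ∧ ((F = S ∧ ∀ h ∈ S, j ≤ h) ∨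
      (j ∉ F ∧ (∀ h ∈ S, h < j → h ∈ F) ∧ (∃ h ∈ S, h < j)) ∨
      (j ∈ F ∧ (∀ h ∈ S, h < j → h ∉ F) ∧ (∃ h ∈ S, h < j))) := by
  unfold g at h
  split_ifs at h with h1 h2 h3
  · obtain ⟨h4, h5⟩ := first_eq_iff.1 h
    exact ⟨h4, Or.inl ⟨h1, h5⟩⟩
  · obtain ⟨h4, h5⟩ := first_eq_iff.1 h
    rw [mem_sdiff] at h4
    obtain ⟨m, hm1, hm2, hm3⟩ := exists_first hS
    rw [hm1] at h2
    obtain ⟨h6, h7⟩ := first_eq_iff.1 h2
    refine ⟨h4.1, Or.inr (Or.inl ⟨h4.2, ?_, ?_⟩)⟩
    · intro x hx hxj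
      by_contra hxF
      exact absurd (h5 x (mem_sdiff.2 ⟨hx, hxF⟩)) (not_le.2 hxj)
    · refine ⟨m, hm2, lt_of_le_of_ne (hm3 j h4.1) ?_⟩
      rintro rfl
      exact h4.2 h6
  · have := j.2
    omega
  · obtain ⟨h4, h5⟩ := first_eq_iff.1 h
    obtain ⟨m, hm1, hm2, hm3⟩ := exists_first hS
    refine ⟨hF h4, Or.inr (Or.inr ⟨h4, ?_, ?_⟩)⟩
    · intro x _ hxj hxF
      exact absurd (h5 x hxF) (not_le.2 hxj)
    · refine ⟨m, hm2, lt_of_le_of_ne (hm3 j (hF h4)) ?_⟩
      rintro rfl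
      exact h2 (h.trans hm1.symm)

lemma g_big {S F : Finset (Fin n)} (hS : S.Nonempty) (hF : F ⊆ S) {i : ℕ}
    (h : g S F = i) (hi : n ≤ i) : F = ∅ ∧ i = n + Nat.log 2 S.card := by
  unfold g at h
  split_ifs at h with h1 h2 h3
  · have := first_lt hS
    omega
  · have : (S \ F).Nonempty := by
      rw [sdiff_nonempty]
      intro h3
      exact h1 (Subset.antisymm hF h3)
    have := first_lt this
    omega
  · exact ⟨h3, h.symm⟩
  · have := first_lt (nonempty_iff_ne_empty.2 h3)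
    omega

lemma L_mem {S E F : Finset (Fin n)} (hS : S.Nonempty) (hE : E ⊆ S) (hF : F ⊆ S) {j : Fin n}
    (h : L S E F = some (j : ℕ)) : j ∈ S := by
  unfold L at h
  split_ifs at h with h1 h2 h3
  · exact (g_spec hS hF (Option.some.inj h)).1
  · exact (g_spec hS hE (Option.some.inj h)).1
  · have := (first_eq_iff.1 (Option.some.inj h)).1
    rw [mem_symmDiff] at this
    rcases this with h4 | h4
    · exact hE h4.1
    · exact hF h4.1

lemma L_none {S E F : Finset (Fin n)} (h : L S E F = none) : E = F ∧ E ≠ S := by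
  unfold L at h
  split_ifs at h with h1 h2 h3
  exact ⟨h3, h1⟩

lemma L_big {S E F : Finset (Fin n)} (hS : S.Nonempty) (hE : E ⊆ S) (hF : F ⊆ S) {i : ℕ}
    (h : L S E F = some i) (hi : n ≤ i) :
    i = n + Nat.log 2 S.card ∧ ((E = S ∧ F = ∅) ∨ (F = S ∧ E = ∅)) := by
  unfold L at h
  split_ifs at h with h1 h2 h3
  · obtain ⟨h4, h5⟩ := g_big hS hF (Option.some.inj h) hi
    exact ⟨h5, Or.inl ⟨h1, h4⟩⟩
  · obtain ⟨h4, h5⟩ := g_big hS hE (Option.some.inj h) hi
    exact ⟨h5, Or.inr ⟨h2, h4⟩⟩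
  · have h4 : (symmDiff E F).Nonempty := by
      rw [nonempty_iff_ne_empty]
      intro h5
      exact h3 (symmDiff_eq_bot.1 (by simpa using h5))
    have := first_lt h4
    have := Option.some.inj h
    omega

/-- The key property. -/
lemma L_key {S E E' F : Finset (Fin n)} (hS : S.Nonempty) (hE : E ⊆ S) (hE' : E' ⊆ S)
    (hF : F ⊆ S) {j : Fin n} (hj : j ∈ E) (hj' : j ∉ E') (hlt : ∀ h < j, h ∈ E ↔ h ∈ E')
    (h1 : L S E F = some (j : ℕ)) (h2 : L S E' F = some (j : ℕ)) : False := by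
  have hE'S : E' ≠ S := by
    rintro rfl
    exact hj' (hE hj)
  unfold L at h1 h2
  rw [if_neg hE'S] at h2
  by_cases hFS : F = S
  · rw [if_pos hFS] at h1 h2
    obtain ⟨-, h3⟩ := g_spec hS hE' (Option.some.inj h2)
    rcases h3 with ⟨h3, -⟩ | ⟨-, h3, m, hm, hmj⟩ | ⟨h3, -⟩
    · exact hE'S h3
    · by_cases hES : E = S
      · rw [if_pos hES] at h1
        have h1 := Option.some.inj h1
        unfold g at h1
        rw [if_pos hFS] at h1
        exact absurd ((first_eq_iff.1 h1).2 m hm) (not_le.2 hmj)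
      · rw [if_neg hES] at h1
        obtain ⟨-, h4⟩ := g_spec hS hE (Option.some.inj h1)
        rcases h4 with ⟨h4, -⟩ | ⟨h4, -⟩ | ⟨-, h4, -⟩
        · exact hES h4
        · exact h4 hj
        · exact h4 m hm hmj ((hlt m hmj).2 (h3 m hm hmj))
    · exact hj' h3
  · rw [if_neg hFS] at h1 h2
    split_ifs at h2 with h3
    obtain ⟨h4, h5⟩ := first_eq_iff.1 (Option.some.inj h2)
    rw [mem_symmDiff] at h4
    have hjF : j ∈ F := by
      rcases h4 with h4 | h4
      · exact absurd h4.1 hj'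
      · exact h4.1
    have hag : ∀ h < j, h ∈ E' → h ∈ F := by
      intro h hh h6
      by_contra h7
      exact absurd (h5 h (mem_symmDiff.2 (Or.inl ⟨h6, h7⟩))) (not_le.2 hh)
    split_ifs at h1 with h6 h7
    · obtain ⟨-, h8⟩ := g_spec hS hF (Option.some.inj h1)
      rcases h8 with ⟨h8, -⟩ | ⟨h8, -⟩ | ⟨-, h8, m, hm, hmj⟩
      · exact hFS h8
      · exact h8 hjF
      · exact h8 m hm hmj (hag m hmj ((hlt m hmj).1 (by rw [h6]; exact hm)))
    · have := (first_eq_iff.1 (Option.some.inj h1)).1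
      rw [mem_symmDiff] at this
      rcases this with h8 | h8
      · exact h8.2 hjF
      · exact h8.2 hj

/-! ### Blocks and exposed coordinates -/

/-- The block of an integer: `{1, 2}`, `{3, 4}`, ... -/
def q (x : ℤ) : ℤ := (x + 1) / 2

/-- The coordinates in which the blocks differ. -/
def SS (P Q : Fin n → ℤ) : Finset (Fin n) := univ.filter fun h => q (P h) ≠ q (Q h)

/-- The coordinates in which `P` is exposed towards `Q`. -/
def EE (P Q : Fin n → ℤ) : Finset (Fin n) := univ.filter fun h =>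
  (q (P h) < q (Q h) ∧ P h % 2 = 0) ∨ (q (Q h) < q (P h) ∧ P h % 2 = 1)

/-- The blocks are neighbours. -/
def Adj (P Q : Fin n → ℤ) : Prop := ∀ h, q (Q h) ≤ q (P h) + 1 ∧ q (P h) ≤ q (Q h) + 1

instance (P Q : Fin n → ℤ) : Decidable (Adj P Q) := by unfold Adj; infer_instance

/-- The coordinates that are `2` modulo `4`. -/
def TT (u : Fin n → ℤ) : Finset (Fin n) := univ.filter fun h => u h % 4 = 2

/-- The shift. -/
def sh (u : Fin n → ℤ) : Fin n → ℤ := fun h => (u h + 1) / 4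

/-- The rule for pairs in different orbits. -/
def mm (u : Fin n → ℤ) : ℕ ⊕ (Fin n → ℤ) := if TT u = ∅ then inr (sh u) else inl (first (TT u))

/-- The rule for pairs in one orbit. -/
def nn (P Q : Fin n → ℤ) : ℕ ⊕ (Fin n → ℤ) :=
  if SS P Q = ∅ then inl (first (univ.filter fun h => P h ≠ Q h))
  else if Adj P Q then (L (SS P Q) (EE P Q) (EE Q P)).elim (inr (sh (Q - P))) inl
  else mm (Q - P)

lemma mem_SS {P Q : Fin n → ℤ} {h : Fin n} : h ∈ SS P Q ↔ q (P h) ≠ q (Q h) := by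
  simp [SS]

lemma mem_EE {P Q : Fin n → ℤ} {h : Fin n} : h ∈ EE P Q ↔
    (q (P h) < q (Q h) ∧ P h % 2 = 0) ∨ (q (Q h) < q (P h) ∧ P h % 2 = 1) := by
  simp [EE]

lemma mem_TT {u : Fin n → ℤ} {h : Fin n} : h ∈ TT u ↔ u h % 4 = 2 := by
  simp [TT]

lemma TT_empty {u : Fin n → ℤ} : TT u = ∅ ↔ ∀ h, u h % 4 ≠ 2 := by
  rw [← not_nonempty_iff_eq_empty]
  constructor
  · intro h1 h h2
    exact h1 ⟨h, mem_TT.2 h2⟩
  · rintro h1 ⟨h, h2⟩
    exact h1 h (mem_TT.1 h2)

lemma SS_symm (P Q : Fin n → ℤ) : SS Q P = SS P Q := by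
  ext h
  rw [mem_SS, mem_SS, ne_comm]

lemma EE_sub (P Q : Fin n → ℤ) : EE P Q ⊆ SS P Q := by
  intro h
  rw [mem_SS, mem_EE]
  omega

lemma EE_sub' (P Q : Fin n → ℤ) : EE Q P ⊆ SS P Q := by
  rw [← SS_symm]
  exact EE_sub Q P

lemma Adj_symm {P Q : Fin n → ℤ} : Adj Q P ↔ Adj P Q := by
  constructor <;> exact fun h x => ⟨(h x).2, (h x).1⟩

lemma SS_ne {P Q : Fin n → ℤ} (h : ¬ Adj P Q) : SS P Q ≠ ∅ := by
  intro h1
  apply h
  intro x
  have : x ∉ SS P Q := by rw [h1]; simp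
  rw [mem_SS] at this
  push Not at this
  omega

lemma mm_inl {u : Fin n → ℤ} {i : ℕ} (h : mm u = inl i) :
    ∃ j : Fin n, i = j ∧ u j % 4 = 2 := by
  unfold mm at h
  split_ifs at h with h1
  obtain ⟨j, h2, h3, -⟩ := exists_first (nonempty_iff_ne_empty.2 h1)
  exact ⟨j, (Sum.inl.inj h).symm.trans h2, mem_TT.1 h3⟩

lemma mm_inr {u t : Fin n → ℤ} (h : mm u = inr t) : t = sh u ∧ ∀ h, u h % 4 ≠ 2 := by
  unfold mm at h
  split_ifs at h with h1
  exact ⟨(Sum.inr.inj h).symm, TT_empty.1 h1⟩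

/-- The cases of a label. -/
lemma nn_inl {P Q : Fin n → ℤ} {i : ℕ} (h : nn P Q = inl i) :
    (SS P Q = ∅ ∧ i = first (univ.filter fun h => P h ≠ Q h)) ∨
    (SS P Q ≠ ∅ ∧ Adj P Q ∧ L (SS P Q) (EE P Q) (EE Q P) = some i) ∨
    (SS P Q ≠ ∅ ∧ ¬ Adj P Q ∧ mm (Q - P) = inl i) := by
  unfold nn at h
  split_ifs at h with h1 h2
  · exact Or.inl ⟨h1, (Sum.inl.inj h).symm⟩
  · refine Or.inr (Or.inl ⟨h1, h2, ?_⟩)
    rcases hL : L (SS P Q) (EE P Q) (EE Q P) with _ | i'
    · rw [hL] at h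
      simp at h
    · rw [hL] at h
      simp only [Option.elim_some] at h
      rw [Sum.inl.inj h]
  · exact Or.inr (Or.inr ⟨h1, h2, h⟩)

lemma nn_inr {P Q : Fin n → ℤ} {t : Fin n → ℤ} (h : nn P Q = inr t) :
    t = sh (Q - P) ∧ (∀ h, (Q h - P h) % 4 ≠ 2) ∧ t ≠ 0 := by
  unfold nn at h
  split_ifs at h with h1 h2
  · rcases hL : L (SS P Q) (EE P Q) (EE Q P) with _ | i'
    · rw [hL] at h
      simp only [Option.elim_none] at h
      have ht := (Sum.inr.inj h).symm
      obtain ⟨h3, h4⟩ := L_none hL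
      refine ⟨ht, ?_, ?_⟩
      · intro x hx
        have h5 := h2 x
        have h6 : x ∈ EE P Q ↔ x ∈ EE Q P := by rw [h3]
        rw [mem_EE, mem_EE] at h6
        unfold q at h5 h6
        omega
      · intro h0
        apply h4
        apply Subset.antisymm (EE_sub P Q)
        intro x hx
        by_contra hx'
        have h6 : x ∉ EE Q P := by rw [← h3]; exact hx'
        have h7 : t x = 0 := by rw [h0]; rfl
        rw [ht] at h7
        unfold sh at h7
        rw [Pi.sub_apply] at h7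
        rw [mem_SS] at hx
        rw [mem_EE] at hx' h6
        unfold q at hx hx' h6
        omega
    · rw [hL] at h
      simp at h
  · obtain ⟨h3, h4⟩ := mm_inr h
    refine ⟨h3, h4, ?_⟩
    intro h0
    apply h2
    intro x
    have h7 : t x = 0 := by rw [h0]; rfl
    rw [h3] at h7
    unfold sh at h7
    rw [Pi.sub_apply] at h7
    unfold q
    omega

lemma sh_neg {u : Fin n → ℤ} (h : ∀ x, u x % 4 ≠ 2) : sh (-u) = - sh u := by
  ext x
  have := h x
  simp only [sh, Pi.neg_apply]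
  omega

lemma sh_add {u v : Fin n → ℤ} (hu : ∀ x, u x % 4 ≠ 2) (hv : ∀ x, v x % 4 ≠ 2)
    (huv : ∀ x, (u + v) x % 4 ≠ 2) : sh (u + v) = sh u + sh v := by
  ext x
  have h1 := hu x
  have h2 := hv x
  have h3 := huv x
  simp only [sh, Pi.add_apply] at h3 ⊢
  omega

lemma TT_neg (u : Fin n → ℤ) : TT (-u) = TT u := by
  ext h
  rw [mem_TT, mem_TT, Pi.neg_apply]
  omega

lemma mm_neg_inl {u : Fin n → ℤ} {i : ℕ} (h : mm u = inl i) : mm (-u) = inl i := by
  unfold mm at h ⊢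
  rw [TT_neg]
  split_ifs at h ⊢ with h1
  exact h

lemma mm_neg_inr {u t : Fin n → ℤ} (h : mm u = inr t) : mm (-u) = inr (-t) := by
  unfold mm at h ⊢
  rw [TT_neg]
  split_ifs at h ⊢ with h1
  rw [sh_neg (TT_empty.1 h1), Sum.inr.inj h]

lemma nn_symm_l {P Q : Fin n → ℤ} {i : ℕ} (h : nn P Q = inl i) : nn Q P = inl i := by
  rcases nn_inl h with ⟨h1, h2⟩ | ⟨h1, h2, h3⟩ | ⟨h1, h2, h3⟩
  · unfold nn
    rw [if_pos (by rw [SS_symm]; exact h1), h2]
    congr 3
    ext x
    exact ne_comm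
  · unfold nn
    rw [if_neg (by rw [SS_symm]; exact h1), if_pos (Adj_symm.2 h2), L_symm, SS_symm, h3]
    rfl
  · unfold nn
    rw [if_neg (by rw [SS_symm]; exact h1), if_neg (fun h => h2 (Adj_symm.1 h))]
    have := mm_neg_inl h3
    rwa [neg_sub] at this

lemma nn_symm_r {P Q t : Fin n → ℤ} (h : nn P Q = inr t) : nn Q P = inr (-t) := by
  obtain ⟨ht, hT, -⟩ := nn_inr h
  unfold nn at h ⊢
  rw [SS_symm, L_symm]
  have hT' : ∀ x, (Q - P) x % 4 ≠ 2 := hT
  have e1 : sh (P - Q) = - sh (Q - P) := by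
    rw [← sh_neg hT', neg_sub]
  split_ifs at h ⊢ with h1 h2 h3 h4
  · rcases hL : L (SS P Q) (EE P Q) (EE Q P) with _ | i'
    · simp only [Option.elim_none]
      rw [e1, ht]
    · rw [hL] at h
      simp at h
  · exact absurd (Adj_symm.2 h2) h3
  · exact absurd (Adj_symm.1 h4) h2
  · have := mm_neg_inr h
    rwa [neg_sub] at this

/-- The labels that are coordinates. -/
lemma nn_lab {P Q : Fin n → ℤ} {j : Fin n} (h : nn P Q = inl (j : ℕ)) :
    (SS P Q = ∅ ∧ (∀ x < j, P x = Q x) ∧ P j ≠ Q j) ∨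
    (SS P Q ≠ ∅ ∧ Adj P Q ∧ L (SS P Q) (EE P Q) (EE Q P) = some (j : ℕ) ∧ j ∈ SS P Q) ∨
    (SS P Q ≠ ∅ ∧ ¬ Adj P Q ∧ (Q j - P j) % 4 = 2) := by
  rcases nn_inl h with ⟨h1, h2⟩ | ⟨h1, h2, h3⟩ | ⟨h1, h2, h3⟩
  · obtain ⟨h3, h4⟩ := first_eq_iff.1 h2.symm
    refine Or.inl ⟨h1, ?_, ?_⟩
    · intro x hx
      by_contra hne
      exact absurd (h4 x (by simp [hne])) (not_le.2 hx)
    · simpa using h3
  · exact Or.inr (Or.inl ⟨h1, h2, h3, L_mem (nonempty_iff_ne_empty.2 h1) (EE_sub _ _)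
      (EE_sub' _ _) h3⟩)
  · obtain ⟨j', h4, h5⟩ := mm_inl h3
    have : j = j' := Fin.ext h4
    subst this
    exact Or.inr (Or.inr ⟨h1, h2, h5⟩)

/-- The labels that are not coordinates. -/
lemma nn_big {P Q : Fin n → ℤ} {i : ℕ} (hPQ : P ≠ Q) (h : nn P Q = inl i) (hi : n ≤ i) :
    i = n + Nat.log 2 (SS P Q).card ∧ SS P Q ≠ ∅ ∧ Adj P Q ∧
      ((EE P Q = SS P Q ∧ EE Q P = ∅) ∨ (EE Q P = SS P Q ∧ EE P Q = ∅)) := by
  rcases nn_inl h with ⟨h1, h2⟩ | ⟨h1, h2, h3⟩ | ⟨h1, h2, h3⟩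
  · have : (univ.filter fun h => P h ≠ Q h).Nonempty := by
      by_contra h4
      rw [not_nonempty_iff_eq_empty] at h4
      apply hPQ
      ext x
      by_contra h5
      have : x ∈ (univ.filter fun h => P h ≠ Q h) := by simp [h5]
      rw [h4] at this
      simp at this
    have := first_lt this
    omega
  · obtain ⟨h4, h5⟩ := L_big (nonempty_iff_ne_empty.2 h1) (EE_sub _ _) (EE_sub' _ _) h3 hi
    exact ⟨h4, h1, h2, h5⟩
  · obtain ⟨j', h4, h5⟩ := mm_inl h3
    have := j'.2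
    omega

lemma SS_empty {P Q : Fin n → ℤ} : SS P Q = ∅ ↔ ∀ x, q (P x) = q (Q x) := by
  rw [← not_nonempty_iff_eq_empty]
  constructor
  · intro h1 x
    by_contra h2
    exact h1 ⟨x, mem_SS.2 h2⟩
  · rintro h1 ⟨x, hx⟩
    exact mem_SS.1 hx (h1 x)

/-- A label `j` on points of different blocks: the blocks have different parity in the
coordinate `j`. -/
lemma lab_odd {P Q : Fin n → ℤ} {j : Fin n} (h : nn P Q = inl (j : ℕ)) (hS : SS P Q ≠ ∅) :
    (q (Q j) - q (P j)) % 2 = 1 := by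
  rcases nn_lab h with ⟨h1, h2⟩ | ⟨h1, h2, h3, h4⟩ | ⟨h1, h2, h3⟩
  · exact absurd h1 hS
  · have := h2 j
    rw [mem_SS] at h4
    omega
  · unfold q
    omega

/-- The key property of labels. -/
lemma nn_key_aux {X W Z : Fin n → ℤ} {j : Fin n} (hXW : ∀ x, q (X x) = q (W x))
    (hlt : ∀ x < j, X x = W x) (hS : SS X Z ≠ ∅) (hXj : j ∈ EE X Z) (hWj : j ∉ EE W Z)
    (h1 : L (SS X Z) (EE X Z) (EE Z X) = some (j : ℕ))
    (h2 : L (SS W Z) (EE W Z) (EE Z W) = some (j : ℕ)) : False := by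
  have e1 : SS W Z = SS X Z := by
    ext x
    rw [mem_SS, mem_SS, hXW]
  have e2 : EE Z W = EE Z X := by
    ext x
    rw [mem_EE, mem_EE, hXW]
  rw [e1, e2] at h2
  refine L_key (nonempty_iff_ne_empty.2 hS) (EE_sub X Z) ?_ (EE_sub' X Z) hXj hWj ?_ h1 h2
  · rw [← e1]
    exact EE_sub W Z
  · intro x hx
    rw [mem_EE, mem_EE, hlt x hx]

lemma nn_key {X W Z : Fin n → ℤ} {j : Fin n} (hXW : SS X W = ∅)
    (h0 : nn X W = inl (j : ℕ)) (hS : SS X Z ≠ ∅) (h1 : nn X Z = inl (j : ℕ))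
    (h2 : nn W Z = inl (j : ℕ)) : False := by
  have hq := SS_empty.1 hXW
  obtain ⟨hlt, hj⟩ : (∀ x < j, X x = W x) ∧ X j ≠ W j := by
    rcases nn_lab h0 with ⟨_, h⟩ | ⟨h, _⟩ | ⟨h, _⟩
    · exact h
    · exact absurd hXW h
    · exact absurd hXW h
  have hS' : SS W Z ≠ ∅ := by
    intro h
    apply hS
    rw [SS_empty] at h ⊢
    intro x
    rw [hq, h]
  have hqj := hq j
  rcases nn_lab h1 with ⟨h, _⟩ | ⟨_, hA, hL, hm⟩ | ⟨_, hA, hm⟩
  · exact hS h
  · rcases nn_lab h2 with ⟨h, _⟩ | ⟨_, hA', hL', hm'⟩ | ⟨_, hA', hm'⟩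
    · exact hS' h
    · rw [mem_SS] at hm
      by_cases hXj : j ∈ EE X Z
      · refine nn_key_aux hq hlt hS hXj ?_ hL hL'
        intro hWj
        rw [mem_EE] at hXj hWj
        unfold q at hXj hWj hm hqj
        omega
      · refine nn_key_aux (fun x => (hq x).symm) (fun x hx => (hlt x hx).symm) hS'
          ?_ hXj hL' hL
        rw [mem_EE] at hXj ⊢
        unfold q at hXj hm hqj ⊢
        omega
    · apply hA'
      intro x
      have := hA x
      rwa [hq] at this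
  · rcases nn_lab h2 with ⟨h, _⟩ | ⟨_, hA', hL', hm'⟩ | ⟨_, hA', hm'⟩
    · exact hS' h
    · apply hA
      intro x
      have := hA' x
      rwa [← hq] at this
    · unfold q at hqj
      omega

/-- The signed count. -/
def cc (P Q : Fin n → ℤ) : ℤ :=
  ∑ h, (if P h % 2 = 0 then (q (Q h) - q (P h)) else - (q (Q h) - q (P h)))

/-- A pair with a label that is not a coordinate. -/
def Big (P Q : Fin n → ℤ) : Prop :=
  Adj P Q ∧ ((EE P Q = SS P Q ∧ EE Q P = ∅) ∨ (EE Q P = SS P Q ∧ EE P Q = ∅))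

lemma Big.par {P Q : Fin n → ℤ} (h : Big P Q) (x : Fin n) (hx : q (P x) ≠ q (Q x)) :
    P x % 2 = Q x % 2 := by
  have hx' := mem_SS.2 hx
  rcases h.2 with ⟨h1, h2⟩ | ⟨h1, h2⟩
  · have h3 : x ∈ EE P Q := by rw [h1]; exact hx'
    have h4 : x ∉ EE Q P := by rw [h2]; simp
    rw [mem_EE] at h3 h4
    omega
  · have h3 : x ∈ EE Q P := by rw [h1]; exact hx'
    have h4 : x ∉ EE P Q := by rw [h2]; simp
    rw [mem_EE] at h3 h4
    omega

lemma Big.cc_eq {P Q : Fin n → ℤ} (h : Big P Q) :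
    cc P Q = (SS P Q).card ∨ cc P Q = - ((SS P Q).card : ℤ) := by
  have hc : ((SS P Q).card : ℤ) = ∑ h, if q (P h) ≠ q (Q h) then (1 : ℤ) else 0 := by
    rw [SS, Finset.card_filter]
    push_cast
    rfl
  rcases h with ⟨hA, ⟨h1, h2⟩ | ⟨h1, h2⟩⟩
  · left
    rw [hc]
    unfold cc
    refine Finset.sum_congr rfl fun x _ => ?_
    have h3 := hA x
    have h4 : x ∈ EE P Q ↔ x ∈ SS P Q := by rw [h1]
    rw [mem_EE, mem_SS] at h4
    split_ifs with h5 h6 h6 <;> omega
  · right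
    rw [hc, ← Finset.sum_neg_distrib]
    unfold cc
    refine Finset.sum_congr rfl fun x _ => ?_
    have h3 := hA x
    have h4 : x ∈ EE Q P ↔ x ∈ SS P Q := by rw [h1]
    have h7 : x ∉ EE P Q := by rw [h2]; simp
    rw [mem_EE, mem_SS] at h4
    rw [mem_EE] at h7
    split_ifs with h5 h6 h6 <;> omega

lemma Big.cc_add {P Q R : Fin n → ℤ} (h1 : Big P Q) (h2 : Big Q R) (h3 : Big P R) :
    cc P R = cc P Q + cc Q R := by
  unfold cc
  rw [← Finset.sum_add_distrib]
  refine Finset.sum_congr rfl fun x _ => ?_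
  have k1 := h1.par x
  have k2 := h2.par x
  have k3 := h3.par x
  split_ifs <;> omega

lemma dyadic {m : ℕ} (hm : m ≠ 0) : 2 ^ Nat.log 2 m ≤ m ∧ m < 2 * 2 ^ Nat.log 2 m :=
  ⟨Nat.pow_log_le_self 2 hm, by
    have := Nat.lt_pow_succ_log_self (b := 2) (by norm_num) m
    rwa [pow_succ, mul_comm] at this⟩

lemma dyadic_three {a b c : ℤ} {l : ℕ} (ha : 2 ^ l ≤ a.natAbs ∧ a.natAbs < 2 * 2 ^ l)
    (hb : 2 ^ l ≤ b.natAbs ∧ b.natAbs < 2 * 2 ^ l)
    (hc : 2 ^ l ≤ c.natAbs ∧ c.natAbs < 2 * 2 ^ l) (h : c = a + b) : False := by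
  generalize 2 ^ l = m at *
  omega

/-- No triangle inside an orbit: labels. -/
lemma nn_l {P Q R : Fin n → ℤ} {i : ℕ} (hPQ : P ≠ Q) (hQR : Q ≠ R) (hPR : P ≠ R)
    (h1 : nn P Q = inl i) (h2 : nn Q R = inl i) (h3 : nn P R = inl i) : False := by
  rcases lt_or_ge i n with hi | hi
  · obtain ⟨j, rfl⟩ : ∃ j : Fin n, (j : ℕ) = i := ⟨⟨i, hi⟩, rfl⟩
    by_cases e1 : SS P Q = ∅
    · by_cases e2 : SS P R = ∅
      · -- all in one block
        have e3 : SS Q R = ∅ := by
          rw [SS_empty] at e1 e2 ⊢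
          intro x
          rw [← e1, e2]
        have f1 : P j ≠ Q j := by
          rcases nn_lab h1 with ⟨_, _, h⟩ | ⟨h, _⟩ | ⟨h, _⟩
          · exact h
          · exact absurd e1 h
          · exact absurd e1 h
        have f2 : P j ≠ R j := by
          rcases nn_lab h3 with ⟨_, _, h⟩ | ⟨h, _⟩ | ⟨h, _⟩
          · exact h
          · exact absurd e2 h
          · exact absurd e2 h
        have f3 : Q j ≠ R j := by
          rcases nn_lab h2 with ⟨_, _, h⟩ | ⟨h, _⟩ | ⟨h, _⟩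
          · exact h
          · exact absurd e3 h
          · exact absurd e3 h
        have g1 := SS_empty.1 e1 j
        have g2 := SS_empty.1 e2 j
        unfold q at g1 g2
        omega
      · exact nn_key e1 h1 e2 h3 h2
    · by_cases e2 : SS Q R = ∅
      · refine nn_key e2 h2 (by rw [SS_symm]; exact e1) (nn_symm_l h1) (nn_symm_l h3)
      · by_cases e3 : SS P R = ∅
        · exact nn_key e3 h3 e1 h1 (nn_symm_l h2)
        · have o1 := lab_odd h1 e1
          have o2 := lab_odd h2 e2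
          have o3 := lab_odd h3 e3
          omega
  · obtain ⟨a1, a2, a3⟩ := nn_big hPQ h1 hi
    obtain ⟨b1, b2, b3⟩ := nn_big hQR h2 hi
    obtain ⟨c1, c2, c3⟩ := nn_big hPR h3 hi
    have d1 := dyadic (m := (SS P Q).card) (by
      rw [Ne, Finset.card_eq_zero]; exact a2)
    have d2 := dyadic (m := (SS Q R).card) (by
      rw [Ne, Finset.card_eq_zero]; exact b2)
    have d3 := dyadic (m := (SS P R).card) (by
      rw [Ne, Finset.card_eq_zero]; exact c2)
    have l1 : Nat.log 2 (SS Q R).card = Nat.log 2 (SS P Q).card := by omega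
    have l2 : Nat.log 2 (SS P R).card = Nat.log 2 (SS P Q).card := by omega
    rw [l1] at d2
    rw [l2] at d3
    have k1 := Big.cc_eq a3
    have k2 := Big.cc_eq b3
    have k3 := Big.cc_eq c3
    refine dyadic_three (a := cc P Q) (b := cc Q R) (c := cc P R)
      (l := Nat.log 2 (SS P Q).card) ?_ ?_ ?_ (Big.cc_add a3 b3 c3)
    · rw [show (cc P Q).natAbs = (SS P Q).card by omega]
      exact d1
    · rw [show (cc Q R).natAbs = (SS Q R).card by omega]
      exact d2
    · rw [show (cc P R).natAbs = (SS P R).card by omega]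
      exact d3

/-- A label `j` is never on a pair congruent modulo `4` in the coordinate `j`. -/
lemma lab_ne {P Q : Fin n → ℤ} {j : Fin n} (h : nn P Q = inl (j : ℕ)) :
    (Q j - P j) % 4 ≠ 0 := by
  rcases nn_lab h with ⟨h1, _, h2⟩ | ⟨_, h2, _, h4⟩ | ⟨_, _, h3⟩
  · have := SS_empty.1 h1 j
    unfold q at this
    omega
  · have := h2 j
    rw [mem_SS] at h4
    unfold q at this h4
    omega
  · omega

lemma nm_l {P Q u : Fin n → ℤ} {i : ℕ} (h1 : nn P Q = inl i) (h2 : mm u = inl i) :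
    mm (Q - P + u) ≠ inl i := by
  intro h3
  obtain ⟨j, rfl, h4⟩ := mm_inl h2
  obtain ⟨j', h5, h6⟩ := mm_inl h3
  have : j = j' := Fin.ext h5
  subst this
  have := lab_ne h1
  simp only [Pi.add_apply, Pi.sub_apply] at h6
  omega

/-! ### The template -/

/-- The inclusion of the shift group. -/
def iota (n : ℕ) : (Fin n → ℤ) →+ (Fin n → ℤ) where
  toFun t := fun h => 4 * t h
  map_zero' := by ext; simp
  map_add' s t := by ext; simp [mul_add]

lemma iota_apply (t : Fin n → ℤ) (h : Fin n) : iota n t h = 4 * t h := rfl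

/-- The transversal `{0, 1, 2, 3}^n`. -/
def sig (n : ℕ) (α : Fin (4 ^ n)) : Fin n → ℤ := fun h => ((finFunctionFinEquiv.symm α h : Fin 4) : ℤ)

lemma sig_range (α : Fin (4 ^ n)) (h : Fin n) : 0 ≤ sig n α h ∧ sig n α h < 4 := by
  unfold sig
  have := (finFunctionFinEquiv.symm α h).2
  omega

lemma sig_inj {α β : Fin (4 ^ n)} (h : ∀ x, sig n α x = sig n β x) : α = β := by
  apply finFunctionFinEquiv.symm.injective
  ext x
  have := h x
  unfold sig at this
  exact_mod_cast this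

/-- The size of a shift. -/
def NN (t : Fin n → ℤ) : ℕ := univ.sup fun h => (t h).natAbs

lemma NN_le {t : Fin n → ℤ} {m : ℕ} : NN t ≤ m ↔ ∀ h, (t h).natAbs ≤ m := by
  unfold NN
  rw [Finset.sup_le_iff]
  simp

/-- The colours of the shifts. -/
def bb (t : Fin n → ℤ) : ℕ :=
  if h : ∃ j : Fin n, t j ≠ 0 then
    ((univ.filter fun j => t j ≠ 0).min' (by
      obtain ⟨j, hj⟩ := h
      exact ⟨j, by simp [hj]⟩) : ℕ) +
    n * Nat.log 2 (t ((univ.filter fun j => t j ≠ 0).min' (by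
      obtain ⟨j, hj⟩ := h
      exact ⟨j, by simp [hj]⟩))).natAbs
  else 0

lemma bb_spec {t : Fin n → ℤ} (h : t ≠ 0) :
    ∃ j : Fin n, t j ≠ 0 ∧ bb t = (j : ℕ) + n * Nat.log 2 (t j).natAbs := by
  have h1 : ∃ j : Fin n, t j ≠ 0 := by
    by_contra h2
    push Not at h2
    exact h (funext h2)
  have hne : (univ.filter fun j => t j ≠ 0).Nonempty := by
    obtain ⟨j, hj⟩ := h1
    exact ⟨j, by simp [hj]⟩
  refine ⟨(univ.filter fun j => t j ≠ 0).min' hne, ?_, ?_⟩
  · have := (univ.filter fun j => t j ≠ 0).min'_mem hne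
    simpa using this
  · unfold bb
    rw [dif_pos h1]

lemma bb_neg (t : Fin n → ℤ) : bb (-t) = bb t := by
  have e : (univ.filter fun j => -t j ≠ 0) = (univ.filter fun j => t j ≠ 0) := by
    ext j
    simp
  unfold bb
  by_cases h : ∃ j : Fin n, t j ≠ 0
  · have h' : ∃ j : Fin n, (-t) j ≠ 0 := by
      obtain ⟨j, hj⟩ := h
      exact ⟨j, by simpa using hj⟩
    rw [dif_pos h, dif_pos h']
    simp only [Pi.neg_apply, Int.natAbs_neg, e]
  · have h' : ¬ ∃ j : Fin n, (-t) j ≠ 0 := by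
      rintro ⟨j, hj⟩
      exact h ⟨j, by simpa using hj⟩
    rw [dif_neg h, dif_neg h']

lemma bb_lt (hn : 1 ≤ n) {t : Fin n → ℤ} {M : ℕ} (h : NN t ≤ M) :
    bb t < n * (Nat.log 2 M + 1) := by
  by_cases h0 : t = 0
  · subst h0
    unfold bb
    rw [dif_neg (by simp)]
    positivity
  · obtain ⟨j, h1, h2⟩ := bb_spec h0
    rw [h2]
    have h3 := NN_le.1 h j
    have h4 : Nat.log 2 (t j).natAbs ≤ Nat.log 2 M := Nat.log_mono_right h3
    have h5 := j.2
    calc (j : ℕ) + n * Nat.log 2 (t j).natAbs ≤ j + n * Nat.log 2 M := by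
          have := Nat.mul_le_mul_left n h4
          omega
      _ < n + n * Nat.log 2 M := by omega
      _ = n * (Nat.log 2 M + 1) := by ring

lemma bb_tri (s t : Fin n → ℤ) (hs : s ≠ 0) (ht : t ≠ 0) (hst : s + t ≠ 0) :
    ¬ (bb s = bb t ∧ bb s = bb (s + t)) := by
  rintro ⟨e1, e2⟩
  obtain ⟨j1, a1, b1⟩ := bb_spec hs
  obtain ⟨j2, a2, b2⟩ := bb_spec ht
  obtain ⟨j3, a3, b3⟩ := bb_spec hst
  have uniq : ∀ (j j' : Fin n) (l l' : ℕ), (j : ℕ) + n * l = j' + n * l' → j = j' ∧ l = l' := by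
    intro j j' l l' h
    have h1 := congrArg (· % n) h
    have h2 := congrArg (· / n) h
    have hn : 0 < n := by have := j.2; omega
    simp only [Nat.add_mul_mod_self_left, Nat.mod_eq_of_lt j.2, Nat.mod_eq_of_lt j'.2,
      Nat.add_mul_div_left _ _ hn, Nat.div_eq_of_lt j.2, Nat.div_eq_of_lt j'.2] at h1 h2
    exact ⟨Fin.ext h1, by omega⟩
  obtain ⟨u1, v1⟩ := uniq j1 j2 _ _ (by rw [← b1, ← b2, e1])
  obtain ⟨u2, v2⟩ := uniq j1 j3 _ _ (by rw [← b1, ← b3, e2])
  subst u1 u2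
  have d1 := dyadic (m := (s j1).natAbs) (by omega)
  have d2 := dyadic (m := (t j1).natAbs) (by omega)
  have d3 := dyadic (m := ((s + t) j1).natAbs) (by omega)
  rw [← v1] at d2
  rw [← v2] at d3
  exact dyadic_three d1 d2 d3 rfl

lemma nn_inv (P Q s : Fin n → ℤ) : nn (P + iota n s) (Q + iota n s) = nn P Q := by
  have hq : ∀ x y : ℤ, q (x + 4 * y) = q x + 2 * y := by
    intro x y
    unfold q
    omega
  have hp : ∀ x y : ℤ, (x + 4 * y) % 2 = x % 2 := by
    intro x y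
    omega
  have e1 : SS (P + iota n s) (Q + iota n s) = SS P Q := by
    ext x
    simp only [mem_SS, Pi.add_apply, iota_apply, hq]
    omega
  have e2 : ∀ P Q : Fin n → ℤ, EE (P + iota n s) (Q + iota n s) = EE P Q := by
    intro P Q
    ext x
    simp only [mem_EE, Pi.add_apply, iota_apply, hq, hp]
    omega
  have e3 : Adj (P + iota n s) (Q + iota n s) ↔ Adj P Q := by
    unfold Adj
    simp only [Pi.add_apply, iota_apply, hq]
    constructor <;> intro h x <;> have := h x <;> omega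
  have e4 : Q + iota n s - (P + iota n s) = Q - P := by abel
  have e5 : (univ.filter fun h => (P + iota n s) h ≠ (Q + iota n s) h) =
      univ.filter fun h => P h ≠ Q h := by
    ext x
    simp
  unfold nn
  rw [e1, e2, e2, e4, e5]
  simp only [e3]

lemma nn_ker (P s : Fin n → ℤ) (hs : s ≠ 0) : nn P (P + iota n s) = inr s := by
  have hq : ∀ x y : ℤ, q (x + 4 * y) = q x + 2 * y := by
    intro x y
    unfold q
    omega
  obtain ⟨j, hj⟩ : ∃ j, s j ≠ 0 := by
    by_contra h2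
    push Not at h2
    exact hs (funext h2)
  have h1 : SS P (P + iota n s) ≠ ∅ := by
    rw [← nonempty_iff_ne_empty]
    refine ⟨j, ?_⟩
    rw [mem_SS, Pi.add_apply, iota_apply, hq]
    omega
  have h2 : ¬ Adj P (P + iota n s) := by
    intro h
    have := h j
    rw [Pi.add_apply, iota_apply, hq] at this
    omega
  unfold nn
  rw [if_neg h1, if_neg h2, add_sub_cancel_left]
  unfold mm
  have h3 : TT (iota n s) = ∅ := by
    rw [TT_empty]
    intro h
    rw [iota_apply]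
    omega
  rw [if_pos h3]
  congr 1
  ext x
  unfold sh
  rw [iota_apply]
  omega

theorem tmpl (n : ℕ) : P4.Tmpl (iota n) (sig n) bb nn mm (n + Nat.log 2 n + 1) NN 1 where
  sig := by
    intro α β τ h
    have h1 : ∀ x, sig n β x - sig n α x = 4 * τ x := by
      intro x
      have := congrFun h x
      rwa [Pi.sub_apply, iota_apply] at this
    refine ⟨sig_inj fun x => ?_, funext fun x => ?_⟩
    · have := sig_range α x
      have := sig_range β x
      have := h1 x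
      omega
    · have := sig_range α x
      have := sig_range β x
      have := h1 x
      rw [Pi.zero_apply]
      omega
  n_symm_l := fun P Q i _ h => nn_symm_l h
  n_symm_r := fun P Q t _ h => nn_symm_r h
  n_inv := nn_inv
  n_ne := fun P Q t _ h => (nn_inr h).2.2
  n_ker := nn_ker
  n_lt := by
    intro P Q i hPQ h
    rcases lt_or_ge i n with hi | hi
    · omega
    · obtain ⟨h1, -⟩ := nn_big hPQ h hi
      have h2 : (SS P Q).card ≤ n := by
        have := Finset.card_le_univ (SS P Q)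
        rwa [Fintype.card_fin] at this
      have := Nat.log_mono_right (b := 2) h2
      omega
  m_lt := by
    intro u i h
    obtain ⟨j, rfl, -⟩ := mm_inl h
    have := j.2
    omega
  n_bnd := by
    intro α β τ t _ h
    obtain ⟨rfl, -, -⟩ := nn_inr h
    rw [NN_le]
    intro x
    have := sig_range α x
    have := sig_range β x
    simp only [sh, Pi.sub_apply, Pi.add_apply, iota_apply]
    omega
  m_bnd := by
    intro α β τ t h
    obtain ⟨rfl, -⟩ := mm_inr h
    rw [NN_le]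
    intro x
    have := sig_range α x
    have := sig_range β x
    simp only [sh, Pi.sub_apply, Pi.add_apply, iota_apply]
    omega
  b_neg := bb_neg
  N_neg := by
    intro t
    unfold NN
    simp
  N_add := by
    intro s t
    rw [NN_le]
    intro h
    have h1 := (NN_le (t := s)).1 le_rfl h
    have h2 := (NN_le (t := t)).1 le_rfl h
    rw [Pi.add_apply]
    omega
  mm_l := by
    intro u v i h1 h2 h3
    obtain ⟨j1, rfl, k1⟩ := mm_inl h1
    obtain ⟨j2, l2, k2⟩ := mm_inl h2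
    obtain ⟨j3, l3, k3⟩ := mm_inl h3
    have := Fin.ext l2
    subst this
    have := Fin.ext l3
    subst this
    rw [Pi.add_apply] at k3
    omega
  mm_r := by
    intro u v t₁ t₂ t₃ h1 h2 h3
    obtain ⟨rfl, k1⟩ := mm_inr h1
    obtain ⟨rfl, k2⟩ := mm_inr h2
    obtain ⟨rfl, k3⟩ := mm_inr h3
    exact sh_add k1 k2 k3
  nm_l := fun P Q u i _ h1 h2 => nm_l h1 h2
  nm_r := by
    intro P Q u t t₁ t₂ _ h1 h2 h3
    obtain ⟨rfl, k1, -⟩ := nn_inr h1
    obtain ⟨rfl, k2⟩ := mm_inr h2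
    obtain ⟨rfl, k3⟩ := mm_inr h3
    exact sh_add k1 k2 k3
  nn_l := fun P Q R i h1 h2 h3 h4 h5 h6 => nn_l h1 h2 h3 h4 h5 h6
  nn_r := by
    intro P Q R t₁ t₂ t₃ _ _ _ h1 h2 h3
    obtain ⟨e1, k1, l1⟩ := nn_inr h1
    obtain ⟨e2, k2, l2⟩ := nn_inr h2
    obtain ⟨e3, k3, l3⟩ := nn_inr h3
    have hd : R - P = (Q - P) + (R - Q) := by abel
    have h4 : t₃ = t₁ + t₂ := by
      rw [e3, e1, e2, hd]
      refine sh_add k1 k2 ?_
      rw [← hd]
      exact k3
    subst h4
    exact bb_tri t₁ t₂ l1 l2 l3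

end Pool.Agent.TriGrow.Four
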