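import Pool.Agent.TriGrow.Main4

/-!
# `r(3; q) > (4 - o(1))^q`

The multicolour Ramsey number of the triangle satisfies
`r(3; (n + ⌊log₂ n⌋ + 1) T + n (⌊log₂ T⌋ + 1)) > 4^(n T)` for all `n, T ≥ 1`, so its growth rate is
at least `4`, with the explicit form `r(3; q) > 4^((⌊√q⌋ - ⌊log₂ ⌊√q⌋⌋ - 1)^2)` for all `q ≥ 1`.

Method: an explicit colouring of the complete graph on `({0,1,2,3}^n)^T`. At each of the `T`
levels there are `n + ⌊log₂ n⌋ + 1` colours; two points that first differ at some level are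
compared at the later levels through their coordinatewise differences modulo `4`; a difference
`2` is coloured by its coordinate, and the other differences are rounded to a multiple of `4`
that is passed on to the previous level as a shift. The shifts are coloured with
`n (⌊log₂ T⌋ + 1)` colours once, for all levels.
-/

namespace Pool.Agent.Results.MP_39a5c3_co.GrowthRateFour

open Pool.Agent.TriGrow

/-- `r(3; (n + ⌊log₂ n⌋ + 1) T + n (⌊log₂ T⌋ + 1)) > 4^(n T)` for all `n ≥ 1` and all `T`;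
`r(3; q) > 4^((⌊√q⌋ - ⌊log₂ ⌊√q⌋⌋ - 1)^2)` for all `q ≥ 1` (truncated subtraction); hence for
every real `0 ≤ c < 4`, `r(3; q) > c^q` for all large `q`. -/
theorem result :
    (∀ n T : ℕ, 1 ≤ n →
      4 ^ (n * T) < r3 ((n + Nat.log 2 n + 1) * T + n * (Nat.log 2 T + 1))) ∧
    (∀ q : ℕ, 1 ≤ q → 4 ^ ((Nat.sqrt q - Nat.log 2 (Nat.sqrt q) - 1) ^ 2) < r3 q) ∧
    (∀ c : ℝ, 0 ≤ c → c < 4 → ∀ᶠ q : ℕ in Filter.atTop, c ^ q < (r3 q : ℝ)) :=
  ⟨Four.main, Four.explicit, Four.growth⟩

end Pool.Agent.Results.MP_39a5c3_co.GrowthRateFour
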