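import Pool.Agent.TriGrow.Tmpl118
import Pool.Agent.TriGrow.Ramsey

/-!
# The lower bound `r(3; 4T + O(log T)) > 118^T`
-/

namespace Pool.Agent.TriGrow.Cert118

open Sum

/-- A transversal of the shift group. -/
def sig (α : Fin 118) : Gam :=
  if (α : ℕ) % 2 = 0 then ((α : ℤ) / 2, 0, 0, 0) else (((α : ℤ) - 61) / 2, 0, 0, 1)

lemma res_sig (α : Fin 118) : (2 * (sig α).1 + 21 * (sig α).2.1 + 28 * (sig α).2.2.1 +
    61 * (sig α).2.2.2) = (α : ℤ) := by
  have := α.2
  unfold sig
  split_ifs with h
  · simp only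
    omega
  · simp only
    omega

lemma sig_inj (α β : Fin 118) (h : sig β - sig α ∈ TT) : α = β := by
  rw [mem_TT] at h
  have h1 := res_sig α
  have h2 := res_sig β
  have := α.2
  have := β.2
  unfold res at h
  simp only [Prod.fst_sub, Prod.snd_sub] at h
  apply Fin.ext
  omega

lemma sig_bnd (α β : Fin 118) : N (sig β - sig α) ≤ 88 := by
  have := α.2
  have := β.2
  unfold sig N
  split_ifs <;> simp only [Prod.fst_sub, Prod.snd_sub] <;> omega

theorem main (T : ℕ) (hT : 1 ≤ T) : 118 ^ T < r3 (4 * T + 4 * Nat.log 2 (89 * T) + 31) := by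
  obtain ⟨X, _, _, F, hX, hF⟩ := exists_good sig_inj sig_bnd tmpl (by rfl) b_tri T
  rw [← hX]
  set R := 4 * Nat.log 2 (89 * T) + 31 with hR
  let enc : Col 4 → ℕ := fun v => v.elim (fun r => r) (fun p => R + (4 * p.1 + p.2))
  have hbase : ∀ x y, x ≠ y → ∀ r, F x y 0 = inl r → r < R := by
    intro x y hxy r hr
    obtain ⟨t, ht, rfl⟩ := hF.bnd x y 0 TT.zero_mem (Or.inl hxy) r hr
    have h1 := b_lt t
    rw [sub_zero] at ht
    have h2 := Nat.log_mono_right (b := 2) ht
    rw [show (1 + 88) * T = 89 * T by ring] at h2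
    omega
  refine lt_r3 (fun x y => enc (F x y 0)) ?_ ?_ ?_ (by omega)
  · intro x y hxy
    rcases hc : F x y 0 with r | ⟨j, i⟩
    · have := hbase x y hxy r hc
      simp only [enc, Sum.elim_inl]
      omega
    · have h1 := hF.lev x y 0 TT.zero_mem j i hc
      have h2 := i.2
      simp only [enc, Sum.elim_inr]
      omega
  · intro x y hxy
    have := hF.symm x y 0 TT.zero_mem (Or.inl hxy)
    rw [neg_zero] at this
    rw [this]
  · intro x y z hxy hyz hxz
    have inj : ∀ x y x' y' : X, x ≠ y → x' ≠ y' → enc (F x y 0) = enc (F x' y' 0) →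
        F x y 0 = F x' y' 0 := by
      intro x y x' y' h h' he
      rcases hc : F x y 0 with r | ⟨j, i⟩ <;> rcases hc' : F x' y' 0 with r' | ⟨j', i'⟩ <;>
        rw [hc, hc'] at he <;> simp only [enc, Sum.elim_inl, Sum.elim_inr] at he
      · rw [he]
      · have := hbase x y h r hc
        omega
      · have := hbase x' y' h' r' hc'
        omega
      · have h1 := i.2
        have h2 := i'.2
        have h3 : j = j' := by omega
        have h4 : i = i' := Fin.ext (by omega)
        rw [h3, h4]
    rintro ⟨h1, h2⟩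
    have := hF.tri x y z 0 TT.zero_mem 0 TT.zero_mem (Or.inl hxy) (Or.inl hyz) (Or.inl hxz)
    rw [add_zero] at this
    exact this ⟨inj _ _ _ _ hxy hyz h1, inj _ _ _ _ hxy hxz h2⟩

open Filter in
theorem growth (c : ℝ) (hc0 : 0 ≤ c) (hc : c < (118 : ℝ) ^ (1 / 4 : ℝ)) :
    ∀ᶠ q : ℕ in atTop, c ^ q < (r3 q : ℝ) := by
  rcases hc0.eq_or_lt with rfl | hcpos
  · filter_upwards [eventually_ge_atTop 36] with q hq
    rw [zero_pow (by omega)]
    have := main 1 le_rfl
    have h2 : 0 < r3 q := by
      by_contra h0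
      have h0' : r3 q = 0 := by omega
      have := forces_r3 q
      rw [h0'] at this
      obtain ⟨x, _⟩ := this (fun _ => ⟨0, by omega⟩)
      exact x.elim0
    exact_mod_cast h2
  -- logarithmic form
  have hlog : Real.log c < Real.log 118 / 4 := by
    have := Real.log_lt_log hcpos hc
    rw [Real.log_rpow (by norm_num)] at this
    linarith
  set δ := Real.log 118 / 4 - Real.log c with hδ
  have hδ0 : 0 < δ := by rw [hδ]; linarith
  have hL : 0 < Real.log 118 := Real.log_pos (by norm_num)
  -- the logarithmic term is negligible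
  have h1 : Tendsto (fun q : ℕ => (Nat.log 2 (89 * q) : ℝ) / q) atTop (nhds 0) := by
    have h2 : Tendsto (fun q : ℕ => (7 + Real.log q / Real.log 2) / q) atTop (nhds 0) := by
      have h3 : Tendsto (fun x : ℝ => (7 + Real.log x / Real.log 2) / x) atTop (nhds 0) := by
        have h4 : Tendsto (fun x : ℝ => 7 / x) atTop (nhds 0) :=
          tendsto_const_nhds.div_atTop tendsto_id
        have h5 : Tendsto (fun x : ℝ => Real.log x / x) atTop (nhds 0) := by
          have := Real.isLittleO_log_id_atTop.tendsto_div_nhds_zero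
          simpa using this
        have h6 := h4.add (h5.div_const (Real.log 2))
        simp only [zero_div, add_zero] at h6
        refine h6.congr (fun x => ?_)
        ring
      exact h3.comp tendsto_natCast_atTop_atTop
    refine squeeze_zero' (Eventually.of_forall fun q => by positivity) ?_ h2
    filter_upwards [eventually_ge_atTop 1] with q hq
    have hq' : (0 : ℝ) < q := by exact_mod_cast hq
    refine div_le_div_of_nonneg_right ?_ hq'.le
    have h3 : (Nat.log 2 (89 * q) : ℝ) ≤ Real.logb 2 ((89 * q : ℕ) : ℝ) := Real.natLog_le_logb _ _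
    refine h3.trans ?_
    have h4 : Real.logb 2 ((89 * q : ℕ) : ℝ) ≤ Real.logb 2 (2 ^ 7 * q) := by
      apply Real.logb_le_logb_of_le (by norm_num)
      · have : (0 : ℝ) < 89 * q := by positivity
        exact_mod_cast this
      · push_cast
        nlinarith
    refine h4.trans ?_
    rw [Real.logb, Real.log_mul (by norm_num) hq'.ne', Real.log_pow, add_div,
      mul_div_assoc, div_self (Real.log_pos (by norm_num)).ne']
    norm_num
  have hgen : ∀ K : ℝ, ∀ᶠ q : ℕ in atTop, K * ((Nat.log 2 (89 * q) : ℝ) + 9) < q := by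
    intro K
    have h7 : Tendsto (fun q : ℕ => K * ((Nat.log 2 (89 * q) : ℝ) / q + 9 / q))
        atTop (nhds 0) := by
      have h8 : Tendsto (fun q : ℕ => (9 : ℝ) / q) atTop (nhds 0) :=
        tendsto_const_div_atTop_nhds_zero_nat 9
      have := (h1.add h8).const_mul K
      simpa using this
    have h9 := h7.eventually (gt_mem_nhds one_pos)
    filter_upwards [h9, eventually_ge_atTop 1] with q hq hq1
    have hq' : (0 : ℝ) < q := by exact_mod_cast hq1
    have : K * ((Nat.log 2 (89 * q) : ℝ) + 9) =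
        K * ((Nat.log 2 (89 * q) : ℝ) / q + 9 / q) * q := by
      field_simp
    rw [this]
    nlinarith
  filter_upwards [hgen (Real.log 118 / δ), hgen 4, eventually_ge_atTop 1] with q hq1 hq2 hq3
  set L := Nat.log 2 (89 * q) with hL'
  have hq4 : 4 * L + 36 < q := by
    have : ((4 * L + 36 : ℕ) : ℝ) < q := by push_cast; linarith
    exact_mod_cast this
  obtain ⟨T, hT⟩ : ∃ T, T = (q - (4 * L + 31)) / 4 := ⟨_, rfl⟩
  have hT1 : 1 ≤ T := by omega
  have hTq : T ≤ q := by omega
  have hT2 : (q : ℝ) / 4 - L - 9 ≤ T := by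
    have : q ≤ 4 * T + 4 * L + 36 := by omega
    have : (q : ℝ) ≤ 4 * T + 4 * L + 36 := by exact_mod_cast this
    linarith
  have hm := main T hT1
  have hlogT : Nat.log 2 (89 * T) ≤ L := Nat.log_mono_right (by omega)
  have hr : r3 (4 * T + 4 * Nat.log 2 (89 * T) + 31) ≤ r3 q := r3_mono (by omega)
  have h118 : ((118 : ℝ) ^ T) < r3 q := by
    have : 118 ^ T < r3 q := lt_of_lt_of_le hm hr
    exact_mod_cast this
  refine lt_trans ?_ h118
  rw [← Real.log_lt_log_iff (by positivity) (by positivity), Real.log_pow, Real.log_pow]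
  have h10 : Real.log 118 * ((L : ℝ) + 9) < δ * q := by
    have := mul_lt_mul_of_pos_left hq1 hδ0
    rwa [← mul_assoc, mul_div_cancel₀ _ hδ0.ne'] at this
  have h11 : ((q : ℝ) / 4 - L - 9) * Real.log 118 ≤ T * Real.log 118 :=
    mul_le_mul_of_nonneg_right hT2 hL.le
  have h12 : δ * q = q * Real.log 118 / 4 - q * Real.log c := by rw [hδ]; ring
  nlinarith

end Pool.Agent.TriGrow.Cert118
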