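import Pool.Agent.TriGrow.Four
import Pool.Agent.TriGrow.Ramsey

/-!
# The growth rate of `r(3; q)` is at least `4`
-/

namespace Pool.Agent.TriGrow.Four

open Sum

/-- The quantitative bound. -/
theorem main (n T : ℕ) (hn : 1 ≤ n) :
    4 ^ (n * T) < r3 ((n + Nat.log 2 n + 1) * T + n * (Nat.log 2 T + 1)) := by
  obtain ⟨X, _, _, F, hX, hF⟩ := P4.exists_good (tmpl n) (by simp [NN]) bb_tri T
  rw [pow_mul, ← hX]
  set R := n * (Nat.log 2 T + 1) with hR
  set k := n + Nat.log 2 n + 1 with hk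
  let enc : P4.Col → ℕ := fun v => v.elim (fun r => r) (fun p => R + (k * p.1 + p.2))
  have hR0 : 0 < R := by rw [hR]; positivity
  have hbase : ∀ x y, x ≠ y → ∀ r, F x y 0 = inl r → r < R := by
    intro x y hxy r hr
    obtain ⟨t, ht, rfl⟩ := hF.bnd x y 0 (Or.inl hxy) r hr
    rw [sub_zero, one_mul] at ht
    exact bb_lt hn ht
  refine lt_r3 (fun x y => enc (F x y 0)) ?_ ?_ ?_ (by omega)
  · intro x y hxy
    rcases hc : F x y 0 with r | ⟨j, i⟩
    · have := hbase x y hxy r hc
      simp only [enc, Sum.elim_inl]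
      omega
    · obtain ⟨h1, h2⟩ := hF.lev x y 0 (Or.inl hxy) j i hc
      simp only [enc, Sum.elim_inr]
      have h3 : k * (j + 1) ≤ k * T := Nat.mul_le_mul_left _ h1
      rw [mul_add, mul_one] at h3
      omega
  · intro x y hxy
    have := hF.symm x y 0 (Or.inl hxy)
    rw [neg_zero] at this
    rw [this]
  · intro x y z hxy hyz hxz
    have inj : ∀ x y x' y' : X, x ≠ y → x' ≠ y' → enc (F x y 0) = enc (F x' y' 0) →
        F x y 0 = F x' y' 0 := by
      intro x y x' y' h h' he
      rcases hc : F x y 0 with r | ⟨j, i⟩ <;> rcases hc' : F x' y' 0 with r' | ⟨j', i'⟩ <;>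
        rw [hc, hc'] at he <;> simp only [enc, Sum.elim_inl, Sum.elim_inr] at he
      · rw [he]
      · have := hbase x y h r hc
        omega
      · have := hbase x' y' h' r' hc'
        omega
      · have h1 := (hF.lev x y 0 (Or.inl h) j i hc).2
        have h2 := (hF.lev x' y' 0 (Or.inl h') j' i' hc').2
        have h0 : k * j + i = k * j' + i' := by omega
        have hk0 : 0 < k := by omega
        have m1 := congrArg (· % k) h0
        have m2 := congrArg (· / k) h0
        simp only [Nat.mul_add_mod, Nat.mod_eq_of_lt h1, Nat.mod_eq_of_lt h2,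
          Nat.mul_add_div hk0, Nat.div_eq_of_lt h1, Nat.div_eq_of_lt h2, add_zero] at m1 m2
        rw [m1, m2]
    rintro ⟨h1, h2⟩
    have := hF.tri x y z 0 0 (Or.inl hxy) (Or.inl hyz) (Or.inl hxz)
    rw [add_zero] at this
    exact this ⟨inj _ _ _ _ hxy hyz h1, inj _ _ _ _ hxy hxz h2⟩

lemma one_lt_r3 {q : ℕ} (hq : 1 ≤ q) : 1 < r3 q := by
  have := lt_r3 (q := q) (X := Unit) (fun _ _ => 0) (fun x y h => absurd rfl h)
    (fun x y h => absurd rfl h) (fun x y z h => absurd rfl h) hq
  simpa using this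

/-- An explicit bound for every number of colours. -/
theorem explicit (q : ℕ) (hq : 1 ≤ q) :
    4 ^ ((Nat.sqrt q - Nat.log 2 (Nat.sqrt q) - 1) ^ 2) < r3 q := by
  set s := Nat.sqrt q with hs
  obtain ⟨m, hm⟩ : ∃ m, m = s - Nat.log 2 s - 1 := ⟨_, rfl⟩
  rw [← hm]
  rcases Nat.eq_zero_or_pos m with h0 | h0
  · rw [h0]
    simpa using one_lt_r3 hq
  · have h1 := main m m h0
    have h2 : Nat.log 2 m ≤ Nat.log 2 s := Nat.log_mono_right (by omega)
    have h3 : m + Nat.log 2 m + 1 ≤ s := by omega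
    have h4 : (m + Nat.log 2 m + 1) * (m + Nat.log 2 m + 1) ≤ q :=
      le_trans (Nat.mul_le_mul h3 h3) (Nat.sqrt_le q)
    rw [sq]
    refine lt_of_lt_of_le h1 (r3_mono (le_trans ?_ h4))
    nlinarith

open Filter in
lemma log_small (K : ℝ) : ∀ᶠ s : ℕ in atTop, K * ((Nat.log 2 s : ℝ) + 2) < s := by
  have h1 : Tendsto (fun q : ℕ => (Nat.log 2 q : ℝ) / q) atTop (nhds 0) := by
    have h2 : Tendsto (fun q : ℕ => (Real.log q / Real.log 2) / q) atTop (nhds 0) := by
      have h3 : Tendsto (fun x : ℝ => (Real.log x / Real.log 2) / x) atTop (nhds 0) := by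
        have h5 : Tendsto (fun x : ℝ => Real.log x / x) atTop (nhds 0) := by
          have := Real.isLittleO_log_id_atTop.tendsto_div_nhds_zero
          simpa using this
        have h6 := h5.div_const (Real.log 2)
        simp only [zero_div] at h6
        refine h6.congr (fun x => ?_)
        ring
      exact h3.comp tendsto_natCast_atTop_atTop
    refine squeeze_zero' (Eventually.of_forall fun q => by positivity) ?_ h2
    filter_upwards [eventually_ge_atTop 1] with q hq
    have hq' : (0 : ℝ) < q := by exact_mod_cast hq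
    refine div_le_div_of_nonneg_right ?_ hq'.le
    exact Real.natLog_le_logb _ _
  have h7 : Tendsto (fun q : ℕ => K * ((Nat.log 2 q : ℝ) / q + 2 / q)) atTop (nhds 0) := by
    have h8 : Tendsto (fun q : ℕ => (2 : ℝ) / q) atTop (nhds 0) :=
      tendsto_const_div_atTop_nhds_zero_nat 2
    have := (h1.add h8).const_mul K
    simpa using this
  have h9 := h7.eventually (gt_mem_nhds one_pos)
  filter_upwards [h9, eventually_ge_atTop 1] with q hq hq1
  have hq' : (0 : ℝ) < q := by exact_mod_cast hq1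
  have : K * ((Nat.log 2 q : ℝ) + 2) = K * ((Nat.log 2 q : ℝ) / q + 2 / q) * q := by
    field_simp
  rw [this]
  nlinarith

open Filter in
/-- The growth rate is at least `4`. -/
theorem growth (c : ℝ) (hc0 : 0 ≤ c) (hc : c < 4) : ∀ᶠ q : ℕ in atTop, c ^ q < (r3 q : ℝ) := by
  rcases le_or_gt c 1 with h1 | h1
  · filter_upwards [eventually_ge_atTop 1] with q hq
    have h2 : c ^ q ≤ 1 := pow_le_one₀ hc0 h1
    have h3 : (1 : ℝ) < r3 q := by exact_mod_cast one_lt_r3 hq
    linarith
  have hL4 : 0 < Real.log 4 := Real.log_pos (by norm_num)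
  have hcpos : 0 < c := by linarith
  have hlc : 0 < Real.log c := Real.log_pos h1
  have hlt : Real.log c < Real.log 4 := Real.log_lt_log hcpos hc
  set δ := Real.log 4 - Real.log c with hδ
  have hδ0 : 0 < δ := by rw [hδ]; linarith
  have hsq : Tendsto Nat.sqrt atTop atTop := by
    refine tendsto_atTop.2 fun b => ?_
    filter_upwards [eventually_ge_atTop (b * b)] with q hq
    exact Nat.le_sqrt.2 hq
  have h2 := hsq.eventually (log_small (2 * Real.log 4 / δ))
  have h3 := hsq.eventually (log_small 1)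
  filter_upwards [h2, h3, eventually_ge_atTop 1] with q hq1 hq2 hq3
  have h4 := explicit q hq3
  have h5 : q < (Nat.sqrt q + 1) * (Nat.sqrt q + 1) := Nat.lt_succ_sqrt q
  generalize Nat.sqrt q = s at *
  have hl : Nat.log 2 s + 2 < s := by
    have : ((Nat.log 2 s + 2 : ℕ) : ℝ) < s := by push_cast; linarith
    exact_mod_cast this
  obtain ⟨m, hm⟩ : ∃ m, m = s - Nat.log 2 s - 1 := ⟨_, rfl⟩
  rw [← hm] at h4
  have hm' : (m : ℝ) = (s + 1) - (Nat.log 2 s + 2) := by
    have : m + (Nat.log 2 s + 2) = s + 1 := by omega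
    have : ((m + (Nat.log 2 s + 2) : ℕ) : ℝ) = ((s + 1 : ℕ) : ℝ) := by rw [this]
    push_cast at this
    linarith
  have h6 : ((4 : ℝ) ^ (m ^ 2)) < r3 q := by exact_mod_cast h4
  refine lt_trans ?_ h6
  rw [← Real.log_lt_log_iff (by positivity) (by positivity), Real.log_pow, Real.log_pow]
  have h7 : (q : ℝ) < (s + 1) * (s + 1) := by exact_mod_cast h5
  have h8 : 2 * Real.log 4 * ((Nat.log 2 s : ℝ) + 2) < δ * s := by
    have := mul_lt_mul_of_pos_left hq1 hδ0
    have e : δ * (2 * Real.log 4 / δ * ((Nat.log 2 s : ℝ) + 2)) =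
        2 * Real.log 4 * ((Nat.log 2 s : ℝ) + 2) := by
      field_simp
    rwa [e] at this
  push_cast
  rw [hm']
  have h9 : (0 : ℝ) ≤ s := Nat.cast_nonneg s
  have h10 : (0 : ℝ) ≤ Nat.log 2 s := Nat.cast_nonneg _
  have h11 : Real.log c * q < Real.log c * ((s + 1) * (s + 1)) :=
    mul_lt_mul_of_pos_left h7 hlc
  have h12 : (2 * Real.log 4 * ((Nat.log 2 s : ℝ) + 2)) * (s + 1) ≤ δ * s * (s + 1) :=
    mul_le_mul_of_nonneg_right h8.le (by linarith)
  have h13 : Real.log c = Real.log 4 - δ := by rw [hδ]; ring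
  nlinarith [mul_nonneg hL4.le (sq_nonneg ((Nat.log 2 s : ℝ) + 2)), mul_nonneg hδ0.le h9]

end Pool.Agent.TriGrow.Four
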