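import Mathlib

/-!
# The product step for triangle-free colourings with a shift group

`Good T F` says that `F` is a triangle-free edge colouring of `X × 𝒯` (a free `𝒯`-set with
orbit set `X`), invariant under `𝒯`, that colours a pair inside one orbit by the base colouring
`b` of the shift.  A template `(n, m)` on a group `Γ ⊇ 𝒯` with `k` ordinary colours turns such a
colouring on `X` into one on `X × A`, where `A` is a transversal of `Γ / 𝒯`.
-/

namespace Pool.Agent.TriGrow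

open Sum

variable {Γ : Type} [AddCommGroup Γ] {k : ℕ}

/-- Colours: `inl` base colours, `inr (j, i)` the ordinary colour `i` of level `j`. -/
abbrev Col (k : ℕ) := ℕ ⊕ (ℕ × Fin k)

/-- A template with `k` ordinary colours: `n` is the rule inside an orbit, `m` the rule between
different orbits; `inl i` is the ordinary colour `i`, and `inr t` passes on the shift `t`. -/
structure Tmpl (𝒯 : AddSubgroup Γ) (b : Γ → ℕ) (n m : Γ → Fin k ⊕ Γ) (N : Γ → ℕ) (c : ℕ) :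
    Prop where
  n_neg_l : ∀ g i, g ≠ 0 → n g = inl i → n (-g) = inl i
  n_neg_r : ∀ g t, g ≠ 0 → n g = inr t → n (-g) = inr (-t)
  n_mem : ∀ g t, g ≠ 0 → n g = inr t → t ∈ 𝒯 ∧ t ≠ 0
  n_bnd : ∀ g t, g ≠ 0 → n g = inr t → N (t - g) ≤ c
  n_ker : ∀ t ∈ 𝒯, t ≠ 0 → n t = inr t
  m_mem : ∀ g t, m g = inr t → t ∈ 𝒯
  m_bnd : ∀ g t, m g = inr t → N (t - g) ≤ c
  b_neg : ∀ t, b (-t) = b t
  N_neg : ∀ t, N (-t) = N t
  N_add : ∀ s t, N (s + t) ≤ N s + N t
  mm_l : ∀ g h i, m g = inl i → m h = inl i → m (g + h) ≠ inl i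
  mm_r : ∀ g h t₁ t₂ t₃, m g = inr t₁ → m h = inr t₂ → m (g + h) = inr t₃ → t₃ = t₁ + t₂
  nm_l : ∀ g h i, g ≠ 0 → n g = inl i → m h = inl i → m (g + h) ≠ inl i
  nm_r : ∀ g h t t₁ t₂, g ≠ 0 → n g = inr t → m h = inr t₁ → m (g + h) = inr t₂ → t₂ = t + t₁
  nn_l : ∀ g h i, g ≠ 0 → h ≠ 0 → g + h ≠ 0 → n g = inl i → n h = inl i → n (g + h) ≠ inl i
  nn_r : ∀ g h t₁ t₂ t₃, g ≠ 0 → h ≠ 0 → g + h ≠ 0 → n g = inr t₁ → n h = inr t₂ →
    n (g + h) = inr t₃ → ¬ (b t₁ = b t₂ ∧ b t₁ = b t₃)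

/-- `F` is a `𝒯`-invariant triangle-free colouring of `X × 𝒯`; `F x y τ` is the colour of the
pair `(x, u), (y, u + τ)`. -/
structure Good (𝒯 : AddSubgroup Γ) (b : Γ → ℕ) (N : Γ → ℕ) (B : ℕ) (T : ℕ) {X : Type}
    (F : X → X → Γ → Col k) : Prop where
  symm : ∀ x y, ∀ τ ∈ 𝒯, (x ≠ y ∨ τ ≠ 0) → F y x (-τ) = F x y τ
  diag : ∀ x, ∀ τ ∈ 𝒯, τ ≠ 0 → F x x τ = inl (b τ)
  tri : ∀ x y z, ∀ τ₁ ∈ 𝒯, ∀ τ₂ ∈ 𝒯, (x ≠ y ∨ τ₁ ≠ 0) → (y ≠ z ∨ τ₂ ≠ 0) →
    (x ≠ z ∨ τ₁ + τ₂ ≠ 0) → ¬ (F x y τ₁ = F y z τ₂ ∧ F x y τ₁ = F x z (τ₁ + τ₂))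
  lev : ∀ x y, ∀ τ ∈ 𝒯, ∀ j i, F x y τ = inr (j, i) → j < T
  bnd : ∀ x y, ∀ τ ∈ 𝒯, (x ≠ y ∨ τ ≠ 0) → ∀ r, F x y τ = inl r → ∃ t, N (t - τ) ≤ B ∧ b t = r

section

variable {X : Type} [LinearOrder X]

/-- The rule for pairs inside an orbit. -/
def nr (n : Γ → Fin k ⊕ Γ) (b : Γ → ℕ) (T : ℕ) (g : Γ) : Col k :=
  (n g).elim (fun i => inr (T, i)) (fun t => inl (b t))

/-- The rule for pairs in different orbits `x < y`. -/
def mr (m : Γ → Fin k ⊕ Γ) (T : ℕ) (F : X → X → Γ → Col k) (x y : X) (g : Γ) : Col k :=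
  (m g).elim (fun i => inr (T, i)) (fun t => F x y t)

/-- The colouring of pairs at the next level, in terms of the difference `g ∈ Γ`. -/
def G (n m : Γ → Fin k ⊕ Γ) (b : Γ → ℕ) (T : ℕ) (F : X → X → Γ → Col k) (x y : X) (g : Γ) :
    Col k :=
  if x = y then nr n b T g else if x < y then mr m T F x y g else mr m T F y x (-g)

omit [AddCommGroup Γ] in
lemma nr_inr {n : Γ → Fin k ⊕ Γ} {b : Γ → ℕ} {T : ℕ} {g : Γ} {j : ℕ} {i : Fin k}
    (h : nr n b T g = inr (j, i)) : j = T ∧ n g = inl i := by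
  unfold nr at h
  rcases hn : n g with i' | t
  · rw [hn] at h
    simp only [Sum.elim_inl, Sum.inr.injEq, Prod.mk.injEq] at h
    obtain ⟨h1, h2⟩ := h
    subst h1 h2
    exact ⟨rfl, rfl⟩
  · rw [hn] at h
    simp at h

omit [AddCommGroup Γ] in
lemma nr_inl {n : Γ → Fin k ⊕ Γ} {b : Γ → ℕ} {T : ℕ} {g : Γ} {r : ℕ}
    (h : nr n b T g = inl r) : ∃ t, n g = inr t ∧ b t = r := by
  unfold nr at h
  rcases hn : n g with i' | t
  · rw [hn] at h
    simp at h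
  · rw [hn] at h
    simp only [Sum.elim_inr, Sum.inl.injEq] at h
    exact ⟨t, rfl, h⟩

omit [AddCommGroup Γ] [LinearOrder X] in
/-- A value of `mr` is either an ordinary colour of the new level or a value of `F`. -/
lemma mr_cases (m : Γ → Fin k ⊕ Γ) (T : ℕ) (F : X → X → Γ → Col k) (x y : X) (g : Γ) :
    (∃ i, m g = inl i ∧ mr m T F x y g = inr (T, i)) ∨
      (∃ t, m g = inr t ∧ mr m T F x y g = F x y t) := by
  unfold mr
  rcases hm : m g with i | t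
  · exact Or.inl ⟨i, rfl, rfl⟩
  · exact Or.inr ⟨t, rfl, rfl⟩

variable {𝒯 : AddSubgroup Γ} {b : Γ → ℕ} {n m : Γ → Fin k ⊕ Γ} {N : Γ → ℕ} {c B T : ℕ}
  {F : X → X → Γ → Col k}

lemma mr_new (ht : Tmpl 𝒯 b n m N c) (hF : Good 𝒯 b N B T F) {x y : X} {g : Γ} {i : Fin k}
    (h : mr m T F x y g = inr (T, i)) : m g = inl i := by
  rcases mr_cases m T F x y g with ⟨i', h1, h2⟩ | ⟨t, h1, h2⟩
  · rw [h2] at h
    simp only [Sum.inr.injEq, Prod.mk.injEq, true_and] at h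
    rw [h1, h]
  · rw [h2] at h
    exact absurd (hF.lev _ _ _ (ht.m_mem _ _ h1) _ _ h) (lt_irrefl _)

lemma mr_inl (_ht : Tmpl 𝒯 b n m N c) {x y : X} {g : Γ} {r : ℕ}
    (h : mr m T F x y g = inl r) : ∃ t, m g = inr t ∧ F x y t = inl r := by
  rcases mr_cases m T F x y g with ⟨i', h1, h2⟩ | ⟨t, h1, h2⟩
  · rw [h2] at h; simp at h
  · rw [h2] at h; exact ⟨t, h1, h⟩

lemma G_self (x : X) (g : Γ) : G n m b T F x x g = nr n b T g := by simp [G]

lemma G_lt {x y : X} (h : x < y) (g : Γ) : G n m b T F x y g = mr m T F x y g := by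
  simp [G, h.ne, h]

lemma G_gt {x y : X} (h : y < x) (g : Γ) : G n m b T F x y g = mr m T F y x (-g) := by
  simp [G, h.ne', h.not_gt]

lemma nr_neg (ht : Tmpl 𝒯 b n m N c) {g : Γ} (hg : g ≠ 0) : nr n b T (-g) = nr n b T g := by
  unfold nr
  rcases hn : n g with i | t
  · rw [ht.n_neg_l g i hg hn]
  · rw [ht.n_neg_r g t hg hn]
    simp [ht.b_neg]

lemma G_symm (ht : Tmpl 𝒯 b n m N c) (x y : X) (g : Γ) (h : x ≠ y ∨ g ≠ 0) :
    G n m b T F y x (-g) = G n m b T F x y g := by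
  rcases lt_trichotomy x y with hxy | hxy | hxy
  · rw [G_gt hxy, G_lt hxy, neg_neg]
  · subst hxy
    rw [G_self, G_self]
    exact nr_neg ht (by simpa using h)
  · rw [G_lt hxy, G_gt hxy]

/-- No monochromatic triangle: sorted version. -/
lemma G_tri_sorted (ht : Tmpl 𝒯 b n m N c) (hF : Good 𝒯 b N B T F) {x y z : X}
    (hxy : x ≤ y) (hyz : y ≤ z) (g h : Γ) (h1 : x ≠ y ∨ g ≠ 0) (h2 : y ≠ z ∨ h ≠ 0)
    (h3 : x ≠ z ∨ g + h ≠ 0) :
    ¬ (G n m b T F x y g = G n m b T F y z h ∧ G n m b T F x y g = G n m b T F x z (g + h)) := by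
  rintro ⟨e1, e2⟩
  rcases hxy.eq_or_lt with rfl | hxy
  · rcases hyz.eq_or_lt with rfl | hyz
    · -- all in the same orbit
      simp only [ne_eq, not_true_eq_false, false_or] at h1 h2 h3
      rw [G_self, G_self] at e1 e2
      rcases hc : nr n b T g with r | ⟨j, i⟩
      · rw [hc] at e1 e2
        obtain ⟨t1, hn1, hb1⟩ := nr_inl hc
        obtain ⟨t2, hn2, hb2⟩ := nr_inl e1.symm
        obtain ⟨t3, hn3, hb3⟩ := nr_inl e2.symm
        exact ht.nn_r g h t1 t2 t3 h1 h2 h3 hn1 hn2 hn3 ⟨hb1.trans hb2.symm, hb1.trans hb3.symm⟩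
      · rw [hc] at e1 e2
        obtain ⟨_, hn1⟩ := nr_inr hc
        obtain ⟨_, hn2⟩ := nr_inr e1.symm
        obtain ⟨_, hn3⟩ := nr_inr e2.symm
        exact ht.nn_l g h i h1 h2 h3 hn1 hn2 hn3
    · -- x = y < z
      simp only [ne_eq, not_true_eq_false, false_or] at h1
      rw [G_self, G_lt hyz] at e1 e2
      rcases hc : nr n b T g with r | ⟨j, i⟩
      · rw [hc] at e1 e2
        obtain ⟨t1, hn1, hb1⟩ := nr_inl hc
        obtain ⟨t2, hm2, hf2⟩ := mr_inl ht e1.symm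
        obtain ⟨t3, hm3, hf3⟩ := mr_inl ht e2.symm
        have h4 := ht.nm_r g h t1 t2 t3 h1 hn1 hm2 hm3
        obtain ⟨ht1, ht1'⟩ := ht.n_mem g t1 h1 hn1
        subst h4
        refine hF.tri x x z t1 ht1 t2 (ht.m_mem _ _ hm2) (Or.inr ht1') (Or.inl hyz.ne)
          (Or.inl hyz.ne) ⟨?_, ?_⟩
        · rw [hF.diag x t1 ht1 ht1', hf2, hb1]
        · rw [hF.diag x t1 ht1 ht1', hf3, hb1]
      · rw [hc] at e1 e2
        obtain ⟨hj, hn1⟩ := nr_inr hc
        subst hj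
        exact ht.nm_l g h i h1 hn1 (mr_new ht hF e1.symm) (mr_new ht hF e2.symm)
  · rcases hyz.eq_or_lt with rfl | hyz
    · -- x < y = z
      simp only [ne_eq, not_true_eq_false, false_or] at h2
      rw [G_self, G_lt hxy] at e1
      rw [G_lt hxy, G_lt hxy] at e2
      rcases hc : nr n b T h with r | ⟨j, i⟩
      · rw [hc] at e1
        rw [e1] at e2
        obtain ⟨t1, hn1, hb1⟩ := nr_inl hc
        obtain ⟨t2, hm2, hf2⟩ := mr_inl ht e1
        obtain ⟨t3, hm3, hf3⟩ := mr_inl ht e2.symm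
        rw [add_comm] at hm3
        have h4 := ht.nm_r h g t1 t2 t3 h2 hn1 hm2 hm3
        obtain ⟨ht1, ht1'⟩ := ht.n_mem h t1 h2 hn1
        subst h4
        refine hF.tri x y y t2 (ht.m_mem _ _ hm2) t1 ht1 (Or.inl hxy.ne) (Or.inr ht1')
          (Or.inl hxy.ne) ⟨?_, ?_⟩
        · rw [hF.diag y t1 ht1 ht1', hf2, hb1]
        · rw [hf2, add_comm, hf3]
      · rw [hc] at e1
        rw [e1] at e2
        obtain ⟨hj, hn1⟩ := nr_inr hc
        subst hj
        have := mr_new ht hF e2.symm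
        rw [add_comm] at this
        exact ht.nm_l h g i h2 hn1 (mr_new ht hF e1) this
    · -- x < y < z
      have hxz := hxy.trans hyz
      rw [G_lt hxy, G_lt hyz] at e1
      rw [G_lt hxy, G_lt hxz] at e2
      rcases mr_cases m T F x y g with ⟨i, h1', h2'⟩ | ⟨t1, hm1, hf1⟩
      · rw [h2'] at e1 e2
        exact ht.mm_l g h i h1' (mr_new ht hF e1.symm) (mr_new ht hF e2.symm)
      · rw [hf1] at e1 e2
        rcases mr_cases m T F y z h with ⟨i, h1', h2'⟩ | ⟨t2, hm2, hf2⟩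
        · rw [h2'] at e1
          exact absurd (hF.lev _ _ _ (ht.m_mem _ _ hm1) _ _ e1) (lt_irrefl _)
        rcases mr_cases m T F x z (g + h) with ⟨i, h1', h2'⟩ | ⟨t3, hm3, hf3⟩
        · rw [h2'] at e2
          exact absurd (hF.lev _ _ _ (ht.m_mem _ _ hm1) _ _ e2) (lt_irrefl _)
        have h4 := ht.mm_r g h t1 t2 t3 hm1 hm2 hm3
        subst h4
        rw [hf2] at e1
        rw [hf3] at e2
        exact hF.tri x y z t1 (ht.m_mem _ _ hm1) t2 (ht.m_mem _ _ hm2) (Or.inl hxy.ne)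
          (Or.inl hyz.ne) (Or.inl hxz.ne) ⟨e1, e2⟩

/-- Reduction of a symmetric triangle statement to sorted triples. -/
lemma sort_three {V Y C : Type} [LinearOrder Y] (o : V → Y) (R : V → V → Prop)
    (cf : V → V → C) (hR : ∀ u v, R u v → R v u) (hs : ∀ u v, R u v → cf v u = cf u v)
    (H : ∀ u v w, o u ≤ o v → o v ≤ o w → R u v → R v w → R u w →
      ¬ (cf u v = cf v w ∧ cf u v = cf u w)) (u v w : V) (h1 : R u v) (h2 : R v w)
    (h3 : R u w) : ¬ (cf u v = cf v w ∧ cf u v = cf u w) := by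
  rintro ⟨e1, e2⟩
  have s1 := hs _ _ h1
  have s2 := hs _ _ h2
  have s3 := hs _ _ h3
  rcases le_total (o u) (o v) with a | a <;> rcases le_total (o v) (o w) with b | b <;>
    rcases le_total (o u) (o w) with c | c
  · exact H u v w a b h1 h2 h3 ⟨e1, e2⟩
  · exact H u v w a b h1 h2 h3 ⟨e1, e2⟩
  · refine H u w v c b h3 (hR _ _ h2) h1 ⟨?_, ?_⟩ <;> simp_all
  · refine H w u v c a (hR _ _ h3) h1 (hR _ _ h2) ⟨?_, ?_⟩ <;> simp_all
  · refine H v u w a c (hR _ _ h1) h3 h2 ⟨?_, ?_⟩ <;> simp_all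
  · refine H v w u b c h2 (hR _ _ h3) (hR _ _ h1) ⟨?_, ?_⟩ <;> simp_all
  · refine H w v u b a (hR _ _ h2) (hR _ _ h1) (hR _ _ h3) ⟨?_, ?_⟩ <;> simp_all
  · refine H w v u b a (hR _ _ h2) (hR _ _ h1) (hR _ _ h3) ⟨?_, ?_⟩ <;> simp_all

lemma G_tri (ht : Tmpl 𝒯 b n m N c) (hF : Good 𝒯 b N B T F) (x y z : X) (g h : Γ)
    (h1 : x ≠ y ∨ g ≠ 0) (h2 : y ≠ z ∨ h ≠ 0) (h3 : x ≠ z ∨ g + h ≠ 0) :
    ¬ (G n m b T F x y g = G n m b T F y z h ∧ G n m b T F x y g = G n m b T F x z (g + h)) := by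
  have key := sort_three (V := X × Γ) (fun u => u.1)
    (fun u v => u.1 ≠ v.1 ∨ v.2 - u.2 ≠ 0)
    (fun u v => G n m b T F u.1 v.1 (v.2 - u.2))
    (by
      rintro u v (h | h)
      · exact Or.inl h.symm
      · exact Or.inr (fun h' => h (by rw [← neg_sub, h', neg_zero])))
    (by
      intro u v h
      have := G_symm (F := F) (T := T) ht u.1 v.1 (v.2 - u.2) h
      rwa [neg_sub] at this)
    (by
      intro u v w huv hvw r1 r2 r3
      have := G_tri_sorted ht hF huv hvw (v.2 - u.2) (w.2 - v.2) r1 r2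
        (by rwa [show v.2 - u.2 + (w.2 - v.2) = w.2 - u.2 by abel])
      rwa [show v.2 - u.2 + (w.2 - v.2) = w.2 - u.2 by abel] at this)
    (x, 0) (y, g) (z, g + h)
  simp only [sub_zero, add_sub_cancel_left] at key
  exact key h1 h2 h3

/-- The next level: `X × A` with a transversal `σ : A → Γ`. -/
def F' {A : Type} (σ : A → Γ) (n m : Γ → Fin k ⊕ Γ) (b : Γ → ℕ) (T : ℕ)
    (F : X → X → Γ → Col k) (p q : X ×ₗ A) (τ : Γ) : Col k :=
  G n m b T F (ofLex p).1 (ofLex q).1 (τ + σ (ofLex q).2 - σ (ofLex p).2)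

theorem Good.step {A : Type} [LinearOrder A] {σ : A → Γ}
    (hσ : ∀ α β, σ β - σ α ∈ 𝒯 → α = β) {c' : ℕ} (hσN : ∀ α β, N (σ β - σ α) ≤ c')
    (ht : Tmpl 𝒯 b n m N c) (hF : Good 𝒯 b N B T F) :
    Good 𝒯 b N (B + (c + c')) (T + 1) (F' σ n m b T F) := by
  -- nondegeneracy
  have nd : ∀ (p q : X ×ₗ A) (τ : Γ), τ ∈ 𝒯 → (p ≠ q ∨ τ ≠ 0) →
      (ofLex p).1 ≠ (ofLex q).1 ∨ τ + σ (ofLex q).2 - σ (ofLex p).2 ≠ 0 := by
    intro p q τ hτ h
    by_contra hcon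
    push Not at hcon
    obtain ⟨h1, h2⟩ := hcon
    have h3 : σ (ofLex q).2 - σ (ofLex p).2 = -τ := by
      rw [add_sub_assoc] at h2
      exact (neg_eq_of_add_eq_zero_right h2).symm
    have h4 : (ofLex p).2 = (ofLex q).2 := hσ _ _ (by rw [h3]; exact 𝒯.neg_mem hτ)
    have h5 : p = q := by
      apply ofLex.injective
      exact Prod.ext h1 h4
    rcases h with h | h
    · exact h h5
    · subst h5
      rw [sub_self] at h3
      exact h (by simpa using h3.symm)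
  refine ⟨?_, ?_, ?_, ?_, ?_⟩
  · intro p q τ hτ h
    have := G_symm (F := F) (T := T) ht (ofLex p).1 (ofLex q).1
      (τ + σ (ofLex q).2 - σ (ofLex p).2) (nd p q τ hτ h)
    unfold F'
    rw [← this]
    congr 1
    abel
  · intro p τ hτ h0
    unfold F'
    rw [G_self, add_sub_cancel_right]
    unfold nr
    rw [ht.n_ker τ hτ h0]
    rfl
  · intro p q s τ₁ h1 τ₂ h2 d1 d2 d3
    have e : τ₁ + σ (ofLex q).2 - σ (ofLex p).2 + (τ₂ + σ (ofLex s).2 - σ (ofLex q).2) =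
        τ₁ + τ₂ + σ (ofLex s).2 - σ (ofLex p).2 := by abel
    have := G_tri ht hF (ofLex p).1 (ofLex q).1 (ofLex s).1
      (τ₁ + σ (ofLex q).2 - σ (ofLex p).2) (τ₂ + σ (ofLex s).2 - σ (ofLex q).2)
      (nd p q τ₁ h1 d1) (nd q s τ₂ h2 d2)
      (by rw [e]; exact nd p s (τ₁ + τ₂) (𝒯.add_mem h1 h2) d3)
    rw [e] at this
    exact this
  · intro p q τ hτ j i hj
    unfold F' at hj
    rcases lt_trichotomy (ofLex p).1 (ofLex q).1 with hxy | hxy | hxy
    · rw [G_lt hxy] at hj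
      rcases mr_cases m T F (ofLex p).1 (ofLex q).1 (τ + σ (ofLex q).2 - σ (ofLex p).2) with
        ⟨i', h1, h2⟩ | ⟨t, h1, h2⟩
      · rw [h2] at hj
        simp only [Sum.inr.injEq, Prod.mk.injEq] at hj
        omega
      · rw [h2] at hj
        exact (hF.lev _ _ _ (ht.m_mem _ _ h1) _ _ hj).trans (Nat.lt_succ_self _)
    · rw [hxy, G_self] at hj
      obtain ⟨h1, _⟩ := nr_inr hj
      omega
    · rw [G_gt hxy] at hj
      rcases mr_cases m T F (ofLex q).1 (ofLex p).1 (-(τ + σ (ofLex q).2 - σ (ofLex p).2)) with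
        ⟨i', h1, h2⟩ | ⟨t, h1, h2⟩
      · rw [h2] at hj
        simp only [Sum.inr.injEq, Prod.mk.injEq] at hj
        omega
      · rw [h2] at hj
        exact (hF.lev _ _ _ (ht.m_mem _ _ h1) _ _ hj).trans (Nat.lt_succ_self _)
  · intro p q τ hτ h r hr
    have hnd := nd p q τ hτ h
    unfold F' at hr
    have hN := hσN (ofLex p).2 (ofLex q).2
    set g := τ + σ (ofLex q).2 - σ (ofLex p).2 with hg
    have hgτ : N (g - τ) ≤ c' := by
      rw [show g - τ = σ (ofLex q).2 - σ (ofLex p).2 by rw [hg]; abel]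
      exact hN
    rcases lt_trichotomy (ofLex p).1 (ofLex q).1 with hxy | hxy | hxy
    · rw [G_lt hxy] at hr
      obtain ⟨t, hm, hf⟩ := mr_inl ht hr
      obtain ⟨s, hs, hs'⟩ := hF.bnd _ _ t (ht.m_mem _ _ hm) (Or.inl hxy.ne) r hf
      refine ⟨s, ?_, hs'⟩
      have h1 := ht.N_add (s - t) ((t - g) + (g - τ))
      have h2 := ht.N_add (t - g) (g - τ)
      have h3 := ht.m_bnd g t hm
      rw [show s - t + ((t - g) + (g - τ)) = s - τ by abel] at h1
      omega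
    · rw [hxy, G_self] at hr
      have hg0 : g ≠ 0 := by
        rcases hnd with h' | h'
        · exact absurd hxy h'
        · exact h'
      obtain ⟨t, hn, hb⟩ := nr_inl hr
      refine ⟨t, ?_, hb⟩
      have h2 := ht.N_add (t - g) (g - τ)
      have h3 := ht.n_bnd g t hg0 hn
      rw [show (t - g) + (g - τ) = t - τ by abel] at h2
      omega
    · rw [G_gt hxy] at hr
      obtain ⟨t, hm, hf⟩ := mr_inl ht hr
      obtain ⟨s, hs, hs'⟩ := hF.bnd _ _ t (ht.m_mem _ _ hm) (Or.inl hxy.ne) r hf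
      refine ⟨-s, ?_, by rw [ht.b_neg]; exact hs'⟩
      have h1 := ht.N_add (s - t) ((t - -g) + -(g - τ))
      have h2 := ht.N_add (t - -g) (-(g - τ))
      have h3 := ht.m_bnd (-g) t hm
      have h4 := ht.N_neg (g - τ)
      have h5 := ht.N_neg (-s - τ)
      rw [show s - t + ((t - -g) + -(g - τ)) = -(-s - τ) by abel] at h1
      omega

end

/-- The iterated colouring. -/
theorem exists_good {𝒯 : AddSubgroup Γ} {b : Γ → ℕ} {n m : Γ → Fin k ⊕ Γ} {N : Γ → ℕ}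
    {c c' W : ℕ} {σ : Fin W → Γ} (hσ : ∀ α β, σ β - σ α ∈ 𝒯 → α = β)
    (hσN : ∀ α β, N (σ β - σ α) ≤ c') (ht : Tmpl 𝒯 b n m N c) (hN0 : N 0 = 0)
    (hb : ∀ s t, s ≠ 0 → t ≠ 0 → s + t ≠ 0 → ¬ (b s = b t ∧ b s = b (s + t))) (T : ℕ) :
    ∃ (X : Type) (_ : LinearOrder X) (_ : Fintype X) (F : X → X → Γ → Col k),
      Fintype.card X = W ^ T ∧ Good 𝒯 b N ((c + c') * T) T F := by
  induction T with
  | zero =>
    refine ⟨Unit, inferInstance, inferInstance, fun _ _ τ => inl (b τ), by simp, ?_⟩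
    refine ⟨?_, ?_, ?_, ?_, ?_⟩
    · intro x y τ _ _
      simp [ht.b_neg]
    · intro x τ _ _
      rfl
    · intro x y z τ₁ _ τ₂ _ h1 h2 h3
      simp only [ne_eq, not_true_eq_false, false_or] at h1 h2 h3
      simp only [Sum.inl.injEq]
      exact hb _ _ h1 h2 h3
    · intro x y τ _ j i h
      simp at h
    · intro x y τ _ _ r h
      simp only [Sum.inl.injEq] at h
      exact ⟨τ, by simp [hN0], h⟩
  | succ T ih =>
    obtain ⟨X, _, _, F, hc, hF⟩ := ih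
    refine ⟨X ×ₗ Fin W, inferInstance, inferInstanceAs (Fintype (X × Fin W)),
      F' σ n m b T F, ?_, ?_⟩
    · have : Fintype.card (X × Fin W) = W ^ (T + 1) := by
        rw [Fintype.card_prod, hc, Fintype.card_fin, pow_succ]
      exact this
    · have := Good.step hσ hσN ht hF
      rw [show (c + c') * (T + 1) = (c + c') * T + (c + c') by ring]
      exact this

end Pool.Agent.TriGrow
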