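import Mathlib

/-!
# The product step with a position-dependent rule inside an orbit

`X × Θ` carries a `Θ`-invariant triangle-free colouring; `Γ ⊇ Θ` is a larger group and `σ : A → Γ`
a transversal.  A template consists of a rule `nn` for pairs of elements of `Γ` (pairs inside one
orbit) and a rule `mm` for differences in `Γ` (pairs in different orbits).
-/

namespace Pool.Agent.TriGrow.P4

open Sum

variable {Γ Θ : Type} [AddCommGroup Γ] [AddCommGroup Θ]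

/-- Colours: `inl` base colours, `inr (j, i)` the ordinary colour `i` of level `j`. -/
abbrev Col := ℕ ⊕ (ℕ × ℕ)

/-- A template. -/
structure Tmpl {A : Type} (ι : Θ →+ Γ) (σ : A → Γ) (b : Θ → ℕ) (nn : Γ → Γ → ℕ ⊕ Θ)
    (mm : Γ → ℕ ⊕ Θ) (k : ℕ) (N : Θ → ℕ) (c : ℕ) : Prop where
  sig : ∀ α β τ, σ β - σ α = ι τ → α = β ∧ τ = 0
  n_symm_l : ∀ P Q i, P ≠ Q → nn P Q = inl i → nn Q P = inl i
  n_symm_r : ∀ P Q t, P ≠ Q → nn P Q = inr t → nn Q P = inr (-t)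
  n_inv : ∀ P Q s, nn (P + ι s) (Q + ι s) = nn P Q
  n_ne : ∀ P Q t, P ≠ Q → nn P Q = inr t → t ≠ 0
  n_ker : ∀ P s, s ≠ 0 → nn P (P + ι s) = inr s
  n_lt : ∀ P Q i, P ≠ Q → nn P Q = inl i → i < k
  m_lt : ∀ u i, mm u = inl i → i < k
  n_bnd : ∀ α β τ t, σ α ≠ ι τ + σ β → nn (σ α) (ι τ + σ β) = inr t → N (t - τ) ≤ c
  m_bnd : ∀ α β τ t, mm (ι τ + σ β - σ α) = inr t → N (t - τ) ≤ c
  b_neg : ∀ t, b (-t) = b t
  N_neg : ∀ t, N (-t) = N t
  N_add : ∀ s t, N (s + t) ≤ N s + N t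
  mm_l : ∀ u v i, mm u = inl i → mm v = inl i → mm (u + v) ≠ inl i
  mm_r : ∀ u v t₁ t₂ t₃, mm u = inr t₁ → mm v = inr t₂ → mm (u + v) = inr t₃ → t₃ = t₁ + t₂
  nm_l : ∀ P Q u i, P ≠ Q → nn P Q = inl i → mm u = inl i → mm (Q - P + u) ≠ inl i
  nm_r : ∀ P Q u t t₁ t₂, P ≠ Q → nn P Q = inr t → mm u = inr t₁ → mm (Q - P + u) = inr t₂ →
    t₂ = t + t₁
  nn_l : ∀ P Q R i, P ≠ Q → Q ≠ R → P ≠ R → nn P Q = inl i → nn Q R = inl i → nn P R ≠ inl i
  nn_r : ∀ P Q R t₁ t₂ t₃, P ≠ Q → Q ≠ R → P ≠ R → nn P Q = inr t₁ → nn Q R = inr t₂ →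
    nn P R = inr t₃ → ¬ (b t₁ = b t₂ ∧ b t₁ = b t₃)

/-- `F` is a `Θ`-invariant triangle-free colouring of `X × Θ`; `F x y τ` is the colour of the
pair `(x, u), (y, u + τ)`. -/
structure Good (b : Θ → ℕ) (N : Θ → ℕ) (k B T : ℕ) {X : Type} (F : X → X → Θ → Col) :
    Prop where
  symm : ∀ x y τ, (x ≠ y ∨ τ ≠ 0) → F y x (-τ) = F x y τ
  diag : ∀ x τ, τ ≠ 0 → F x x τ = inl (b τ)
  tri : ∀ x y z τ₁ τ₂, (x ≠ y ∨ τ₁ ≠ 0) → (y ≠ z ∨ τ₂ ≠ 0) →
    (x ≠ z ∨ τ₁ + τ₂ ≠ 0) → ¬ (F x y τ₁ = F y z τ₂ ∧ F x y τ₁ = F x z (τ₁ + τ₂))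
  lev : ∀ x y τ, (x ≠ y ∨ τ ≠ 0) → ∀ j i, F x y τ = inr (j, i) → j < T ∧ i < k
  bnd : ∀ x y τ, (x ≠ y ∨ τ ≠ 0) → ∀ r, F x y τ = inl r → ∃ t, N (t - τ) ≤ B ∧ b t = r

section

variable {X : Type} [LinearOrder X]

/-- The rule for pairs inside an orbit. -/
def nr (nn : Γ → Γ → ℕ ⊕ Θ) (b : Θ → ℕ) (T : ℕ) (P Q : Γ) : Col :=
  (nn P Q).elim (fun i => inr (T, i)) (fun t => inl (b t))

/-- The rule for pairs in different orbits `x < y`. -/
def mr (mm : Γ → ℕ ⊕ Θ) (T : ℕ) (F : X → X → Θ → Col) (x y : X) (u : Γ) : Col :=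
  (mm u).elim (fun i => inr (T, i)) (fun t => F x y t)

/-- The colouring of pairs of points of `X × Γ` at the next level. -/
def G (nn : Γ → Γ → ℕ ⊕ Θ) (mm : Γ → ℕ ⊕ Θ) (b : Θ → ℕ) (T : ℕ) (F : X → X → Θ → Col)
    (x y : X) (P Q : Γ) : Col :=
  if x = y then nr nn b T P Q else if x < y then mr mm T F x y (Q - P)
  else mr mm T F y x (P - Q)

omit [AddCommGroup Γ] [AddCommGroup Θ] in
lemma nr_inr {nn : Γ → Γ → ℕ ⊕ Θ} {b : Θ → ℕ} {T : ℕ} {P Q : Γ} {j i : ℕ}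
    (h : nr nn b T P Q = inr (j, i)) : j = T ∧ nn P Q = inl i := by
  unfold nr at h
  rcases hn : nn P Q with i' | t
  · rw [hn] at h
    simp only [Sum.elim_inl, Sum.inr.injEq, Prod.mk.injEq] at h
    obtain ⟨h1, h2⟩ := h
    subst h1 h2
    exact ⟨rfl, rfl⟩
  · rw [hn] at h
    simp at h

omit [AddCommGroup Γ] [AddCommGroup Θ] in
lemma nr_inl {nn : Γ → Γ → ℕ ⊕ Θ} {b : Θ → ℕ} {T : ℕ} {P Q : Γ} {r : ℕ}
    (h : nr nn b T P Q = inl r) : ∃ t, nn P Q = inr t ∧ b t = r := by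
  unfold nr at h
  rcases hn : nn P Q with i' | t
  · rw [hn] at h
    simp at h
  · rw [hn] at h
    simp only [Sum.elim_inr, Sum.inl.injEq] at h
    exact ⟨t, rfl, h⟩

omit [AddCommGroup Γ] [AddCommGroup Θ] [LinearOrder X] in
lemma mr_cases (mm : Γ → ℕ ⊕ Θ) (T : ℕ) (F : X → X → Θ → Col) (x y : X) (u : Γ) :
    (∃ i, mm u = inl i ∧ mr mm T F x y u = inr (T, i)) ∨
      (∃ t, mm u = inr t ∧ mr mm T F x y u = F x y t) := by
  unfold mr
  rcases hm : mm u with i | t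
  · exact Or.inl ⟨i, rfl, rfl⟩
  · exact Or.inr ⟨t, rfl, rfl⟩

variable {A : Type} {ι : Θ →+ Γ} {σ : A → Γ} {b : Θ → ℕ} {nn : Γ → Γ → ℕ ⊕ Θ}
  {mm : Γ → ℕ ⊕ Θ} {k : ℕ} {N : Θ → ℕ} {c B T : ℕ} {F : X → X → Θ → Col}

omit [AddCommGroup Γ] in
lemma mr_new (hF : Good b N k B T F) {x y : X} (hxy : x < y) {u : Γ} {i : ℕ}
    (h : mr mm T F x y u = inr (T, i)) : mm u = inl i := by
  rcases mr_cases mm T F x y u with ⟨i', h1, h2⟩ | ⟨t, h1, h2⟩
  · rw [h2] at h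
    simp only [Sum.inr.injEq, Prod.mk.injEq, true_and] at h
    rw [h1, h]
  · rw [h2] at h
    exact absurd (hF.lev _ _ _ (Or.inl hxy.ne) _ _ h).1 (lt_irrefl _)

omit [AddCommGroup Γ] [AddCommGroup Θ] [LinearOrder X] in
lemma mr_inl {x y : X} {u : Γ} {r : ℕ}
    (h : mr mm T F x y u = inl r) : ∃ t, mm u = inr t ∧ F x y t = inl r := by
  rcases mr_cases mm T F x y u with ⟨i', h1, h2⟩ | ⟨t, h1, h2⟩
  · rw [h2] at h; simp at h
  · rw [h2] at h; exact ⟨t, h1, h⟩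

omit [AddCommGroup Θ] in
lemma G_self (x : X) (P Q : Γ) : G nn mm b T F x x P Q = nr nn b T P Q := by simp [G]

omit [AddCommGroup Θ] in
lemma G_lt {x y : X} (h : x < y) (P Q : Γ) :
    G nn mm b T F x y P Q = mr mm T F x y (Q - P) := by
  simp [G, h.ne, h]

omit [AddCommGroup Θ] in
lemma G_gt {x y : X} (h : y < x) (P Q : Γ) :
    G nn mm b T F x y P Q = mr mm T F y x (P - Q) := by
  simp [G, h.ne', h.not_gt]

lemma nr_symm (ht : Tmpl ι σ b nn mm k N c) {P Q : Γ} (hg : P ≠ Q) :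
    nr nn b T Q P = nr nn b T P Q := by
  unfold nr
  rcases hn : nn P Q with i | t
  · rw [ht.n_symm_l P Q i hg hn]
  · rw [ht.n_symm_r P Q t hg hn]
    simp [ht.b_neg]

lemma G_symm (ht : Tmpl ι σ b nn mm k N c) (x y : X) (P Q : Γ) (h : x ≠ y ∨ P ≠ Q) :
    G nn mm b T F y x Q P = G nn mm b T F x y P Q := by
  rcases lt_trichotomy x y with hxy | hxy | hxy
  · rw [G_gt hxy, G_lt hxy]
  · subst hxy
    rw [G_self, G_self]
    exact nr_symm ht (by simpa using h)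
  · rw [G_lt hxy, G_gt hxy]

/-- No monochromatic triangle: sorted version. -/
lemma G_tri_sorted (ht : Tmpl ι σ b nn mm k N c) (hF : Good b N k B T F) {x y z : X}
    (hxy : x ≤ y) (hyz : y ≤ z) (P Q R : Γ) (h1 : x ≠ y ∨ P ≠ Q) (h2 : y ≠ z ∨ Q ≠ R)
    (h3 : x ≠ z ∨ P ≠ R) :
    ¬ (G nn mm b T F x y P Q = G nn mm b T F y z Q R ∧
      G nn mm b T F x y P Q = G nn mm b T F x z P R) := by
  rintro ⟨e1, e2⟩
  rcases hxy.eq_or_lt with rfl | hxy
  · rcases hyz.eq_or_lt with rfl | hyz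
    · -- all in the same orbit
      simp only [ne_eq, not_true_eq_false, false_or] at h1 h2 h3
      rw [G_self, G_self] at e1 e2
      rcases hc : nr nn b T P Q with r | ⟨j, i⟩
      · rw [hc] at e1 e2
        obtain ⟨t1, hn1, hb1⟩ := nr_inl hc
        obtain ⟨t2, hn2, hb2⟩ := nr_inl e1.symm
        obtain ⟨t3, hn3, hb3⟩ := nr_inl e2.symm
        exact ht.nn_r P Q R t1 t2 t3 h1 h2 h3 hn1 hn2 hn3
          ⟨hb1.trans hb2.symm, hb1.trans hb3.symm⟩
      · rw [hc] at e1 e2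
        obtain ⟨_, hn1⟩ := nr_inr hc
        obtain ⟨_, hn2⟩ := nr_inr e1.symm
        obtain ⟨_, hn3⟩ := nr_inr e2.symm
        exact ht.nn_l P Q R i h1 h2 h3 hn1 hn2 hn3
    · -- x = y < z
      simp only [ne_eq, not_true_eq_false, false_or] at h1
      rw [G_self, G_lt hyz] at e1 e2
      have hd : R - P = Q - P + (R - Q) := by abel
      rcases hc : nr nn b T P Q with r | ⟨j, i⟩
      · rw [hc] at e1 e2
        obtain ⟨t1, hn1, hb1⟩ := nr_inl hc
        obtain ⟨t2, hm2, hf2⟩ := mr_inl e1.symm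
        obtain ⟨t3, hm3, hf3⟩ := mr_inl e2.symm
        rw [hd] at hm3
        have h4 := ht.nm_r P Q (R - Q) t1 t2 t3 h1 hn1 hm2 hm3
        have ht1' := ht.n_ne P Q t1 h1 hn1
        subst h4
        refine hF.tri x x z t1 t2 (Or.inr ht1') (Or.inl hyz.ne) (Or.inl hyz.ne) ⟨?_, ?_⟩
        · rw [hF.diag x t1 ht1', hf2, hb1]
        · rw [hF.diag x t1 ht1', hf3, hb1]
      · rw [hc] at e1 e2
        obtain ⟨hj, hn1⟩ := nr_inr hc
        subst hj
        have := mr_new hF hyz e2.symm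
        rw [hd] at this
        exact ht.nm_l P Q (R - Q) i h1 hn1 (mr_new hF hyz e1.symm) this
  · rcases hyz.eq_or_lt with rfl | hyz
    · -- x < y = z
      simp only [ne_eq, not_true_eq_false, false_or] at h2
      rw [G_self, G_lt hxy] at e1
      rw [G_lt hxy, G_lt hxy] at e2
      have hd : R - P = R - Q + (Q - P) := by abel
      rcases hc : nr nn b T Q R with r | ⟨j, i⟩
      · rw [hc] at e1
        rw [e1] at e2
        obtain ⟨t1, hn1, hb1⟩ := nr_inl hc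
        obtain ⟨t2, hm2, hf2⟩ := mr_inl e1
        obtain ⟨t3, hm3, hf3⟩ := mr_inl e2.symm
        rw [hd] at hm3
        have h4 := ht.nm_r Q R (Q - P) t1 t2 t3 h2 hn1 hm2 hm3
        have ht1' := ht.n_ne Q R t1 h2 hn1
        subst h4
        refine hF.tri x y y t2 t1 (Or.inl hxy.ne) (Or.inr ht1') (Or.inl hxy.ne) ⟨?_, ?_⟩
        · rw [hF.diag y t1 ht1', hf2, hb1]
        · rw [hf2, add_comm, hf3]
      · rw [hc] at e1
        rw [e1] at e2
        obtain ⟨hj, hn1⟩ := nr_inr hc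
        subst hj
        have := mr_new hF hxy e2.symm
        rw [hd] at this
        exact ht.nm_l Q R (Q - P) i h2 hn1 (mr_new hF hxy e1) this
    · -- x < y < z
      have hxz := hxy.trans hyz
      rw [G_lt hxy, G_lt hyz] at e1
      rw [G_lt hxy, G_lt hxz] at e2
      have hd : R - P = Q - P + (R - Q) := by abel
      rcases mr_cases mm T F x y (Q - P) with ⟨i, h1', h2'⟩ | ⟨t1, hm1, hf1⟩
      · rw [h2'] at e1 e2
        have := mr_new hF hxz e2.symm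
        rw [hd] at this
        exact ht.mm_l _ _ i h1' (mr_new hF hyz e1.symm) this
      · rw [hf1] at e1 e2
        rcases mr_cases mm T F y z (R - Q) with ⟨i, h1', h2'⟩ | ⟨t2, hm2, hf2⟩
        · rw [h2'] at e1
          exact absurd (hF.lev _ _ _ (Or.inl hxy.ne) _ _ e1).1 (lt_irrefl _)
        rcases mr_cases mm T F x z (R - P) with ⟨i, h1', h2'⟩ | ⟨t3, hm3, hf3⟩
        · rw [h2'] at e2
          exact absurd (hF.lev _ _ _ (Or.inl hxy.ne) _ _ e2).1 (lt_irrefl _)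
        have h4 := ht.mm_r _ _ t1 t2 t3 hm1 hm2 (by rw [← hd]; exact hm3)
        subst h4
        rw [hf2] at e1
        rw [hf3] at e2
        exact hF.tri x y z t1 t2 (Or.inl hxy.ne) (Or.inl hyz.ne) (Or.inl hxz.ne) ⟨e1, e2⟩

/-- Reduction of a symmetric triangle statement to sorted triples. -/
lemma sort_three {V Y C : Type} [LinearOrder Y] (o : V → Y) (R : V → V → Prop)
    (cf : V → V → C) (hR : ∀ u v, R u v → R v u) (hs : ∀ u v, R u v → cf v u = cf u v)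
    (H : ∀ u v w, o u ≤ o v → o v ≤ o w → R u v → R v w → R u w →
      ¬ (cf u v = cf v w ∧ cf u v = cf u w)) (u v w : V) (h1 : R u v) (h2 : R v w)
    (h3 : R u w) : ¬ (cf u v = cf v w ∧ cf u v = cf u w) := by
  rintro ⟨e1, e2⟩
  have s1 := hs _ _ h1
  have s2 := hs _ _ h2
  have s3 := hs _ _ h3
  rcases le_total (o u) (o v) with a | a <;> rcases le_total (o v) (o w) with b | b <;>
    rcases le_total (o u) (o w) with c | c
  · exact H u v w a b h1 h2 h3 ⟨e1, e2⟩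
  · exact H u v w a b h1 h2 h3 ⟨e1, e2⟩
  · refine H u w v c b h3 (hR _ _ h2) h1 ⟨?_, ?_⟩ <;> simp_all
  · refine H w u v c a (hR _ _ h3) h1 (hR _ _ h2) ⟨?_, ?_⟩ <;> simp_all
  · refine H v u w a c (hR _ _ h1) h3 h2 ⟨?_, ?_⟩ <;> simp_all
  · refine H v w u b c h2 (hR _ _ h3) (hR _ _ h1) ⟨?_, ?_⟩ <;> simp_all
  · refine H w v u b a (hR _ _ h2) (hR _ _ h1) (hR _ _ h3) ⟨?_, ?_⟩ <;> simp_all
  · refine H w v u b a (hR _ _ h2) (hR _ _ h1) (hR _ _ h3) ⟨?_, ?_⟩ <;> simp_all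

lemma G_tri (ht : Tmpl ι σ b nn mm k N c) (hF : Good b N k B T F) (x y z : X) (P Q R : Γ)
    (h1 : x ≠ y ∨ P ≠ Q) (h2 : y ≠ z ∨ Q ≠ R) (h3 : x ≠ z ∨ P ≠ R) :
    ¬ (G nn mm b T F x y P Q = G nn mm b T F y z Q R ∧
      G nn mm b T F x y P Q = G nn mm b T F x z P R) := by
  have key := sort_three (V := X × Γ) (fun u => u.1)
    (fun u v => u.1 ≠ v.1 ∨ u.2 ≠ v.2)
    (fun u v => G nn mm b T F u.1 v.1 u.2 v.2)
    (by
      rintro u v (h | h)
      · exact Or.inl h.symm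
      · exact Or.inr h.symm)
    (by
      intro u v h
      exact G_symm ht u.1 v.1 u.2 v.2 h)
    (by
      intro u v w huv hvw r1 r2 r3
      exact G_tri_sorted ht hF huv hvw u.2 v.2 w.2 r1 r2 r3)
    (x, P) (y, Q) (z, R)
  exact key h1 h2 h3

lemma G_inv (ht : Tmpl ι σ b nn mm k N c) (x y : X) (P Q : Γ) (s : Θ) :
    G nn mm b T F x y (P + ι s) (Q + ι s) = G nn mm b T F x y P Q := by
  unfold G nr
  rw [ht.n_inv, show Q + ι s - (P + ι s) = Q - P by abel,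
    show P + ι s - (Q + ι s) = P - Q by abel]

/-- The next level. -/
def F' (ι : Θ →+ Γ) (σ : A → Γ) (nn : Γ → Γ → ℕ ⊕ Θ) (mm : Γ → ℕ ⊕ Θ) (b : Θ → ℕ) (T : ℕ)
    (F : X → X → Θ → Col) (p q : X ×ₗ A) (τ : Θ) : Col :=
  G nn mm b T F (ofLex p).1 (ofLex q).1 (σ (ofLex p).2) (ι τ + σ (ofLex q).2)

theorem Good.step [LinearOrder A] (ht : Tmpl ι σ b nn mm k N c) (hF : Good b N k B T F) :
    Good b N k (B + c) (T + 1) (F' ι σ nn mm b T F) := by
  -- nondegeneracy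
  have nd : ∀ (p q : X ×ₗ A) (τ : Θ), (p ≠ q ∨ τ ≠ 0) →
      (ofLex p).1 ≠ (ofLex q).1 ∨ σ (ofLex p).2 ≠ ι τ + σ (ofLex q).2 := by
    intro p q τ h
    by_contra hcon
    push Not at hcon
    obtain ⟨h1, h2⟩ := hcon
    obtain ⟨h4, h5⟩ := ht.sig (ofLex q).2 (ofLex p).2 τ (by rw [h2]; abel)
    have h6 : p = q := by
      apply ofLex.injective
      exact Prod.ext h1 h4.symm
    rcases h with h | h
    · exact h h6
    · exact h h5
  refine ⟨?_, ?_, ?_, ?_, ?_⟩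
  · intro p q τ h
    have h1 := G_symm (F := F) (T := T) ht (ofLex p).1 (ofLex q).1
      (σ (ofLex p).2) (ι τ + σ (ofLex q).2) (nd p q τ h)
    have h2 := G_inv (F := F) (T := T) ht (ofLex q).1 (ofLex p).1
      (σ (ofLex q).2) (ι (-τ) + σ (ofLex p).2) τ
    unfold F'
    rw [← h1, ← h2]
    congr 1
    · abel
    · rw [map_neg]; abel
  · intro p τ h0
    unfold F'
    rw [G_self, add_comm]
    unfold nr
    rw [ht.n_ker _ τ h0]
    rfl
  · intro p q s τ₁ τ₂ d1 d2 d3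
    have h2 := G_inv (F := F) (T := T) ht (ofLex q).1 (ofLex s).1
      (σ (ofLex q).2) (ι τ₂ + σ (ofLex s).2) τ₁
    have e1 : σ (ofLex q).2 + ι τ₁ = ι τ₁ + σ (ofLex q).2 := add_comm _ _
    have e2 : ι τ₂ + σ (ofLex s).2 + ι τ₁ = ι (τ₁ + τ₂) + σ (ofLex s).2 := by
      rw [map_add]; abel
    rw [e1, e2] at h2
    have hne : (ofLex q).1 ≠ (ofLex s).1 ∨
        ι τ₁ + σ (ofLex q).2 ≠ ι (τ₁ + τ₂) + σ (ofLex s).2 := by
      rcases nd q s τ₂ d2 with h' | h'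
      · exact Or.inl h'
      · right
        intro h''
        apply h'
        rw [map_add] at h''
        have := congrArg (fun z => z - ι τ₁) h''
        simp only [add_sub_cancel_left] at this
        rw [this]
        abel
    have := G_tri ht hF (ofLex p).1 (ofLex q).1 (ofLex s).1 (σ (ofLex p).2)
      (ι τ₁ + σ (ofLex q).2) (ι (τ₁ + τ₂) + σ (ofLex s).2)
      (nd p q τ₁ d1) hne (nd p s (τ₁ + τ₂) d3)
    rw [h2] at this
    exact this
  · intro p q τ h j i hj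
    have hnd := nd p q τ h
    unfold F' at hj
    rcases lt_trichotomy (ofLex p).1 (ofLex q).1 with hxy | hxy | hxy
    · rw [G_lt hxy] at hj
      rcases mr_cases mm T F (ofLex p).1 (ofLex q).1
        (ι τ + σ (ofLex q).2 - σ (ofLex p).2) with ⟨i', h1, h2⟩ | ⟨t, h1, h2⟩
      · rw [h2] at hj
        simp only [Sum.inr.injEq, Prod.mk.injEq] at hj
        have := ht.m_lt _ _ h1
        omega
      · rw [h2] at hj
        have := hF.lev _ _ _ (Or.inl hxy.ne) _ _ hj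
        omega
    · rw [hxy, G_self] at hj
      obtain ⟨h1, h2⟩ := nr_inr hj
      have := ht.n_lt _ _ _ (by rcases hnd with h' | h'; exacts [absurd hxy h', h']) h2
      omega
    · rw [G_gt hxy] at hj
      rcases mr_cases mm T F (ofLex q).1 (ofLex p).1
        (σ (ofLex p).2 - (ι τ + σ (ofLex q).2)) with ⟨i', h1, h2⟩ | ⟨t, h1, h2⟩
      · rw [h2] at hj
        simp only [Sum.inr.injEq, Prod.mk.injEq] at hj
        have := ht.m_lt _ _ h1
        omega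
      · rw [h2] at hj
        have := hF.lev _ _ _ (Or.inl hxy.ne) _ _ hj
        omega
  · intro p q τ h r hr
    have hnd := nd p q τ h
    unfold F' at hr
    rcases lt_trichotomy (ofLex p).1 (ofLex q).1 with hxy | hxy | hxy
    · rw [G_lt hxy] at hr
      obtain ⟨t, hm, hf⟩ := mr_inl hr
      obtain ⟨s, hs, hs'⟩ := hF.bnd _ _ t (Or.inl hxy.ne) r hf
      refine ⟨s, ?_, hs'⟩
      have h1 := ht.N_add (s - t) (t - τ)
      have h3 := ht.m_bnd _ _ τ t hm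
      rw [show s - t + (t - τ) = s - τ by abel] at h1
      omega
    · rw [hxy, G_self] at hr
      have hg0 : σ (ofLex p).2 ≠ ι τ + σ (ofLex q).2 := by
        rcases hnd with h' | h'
        · exact absurd hxy h'
        · exact h'
      obtain ⟨t, hn, hb⟩ := nr_inl hr
      refine ⟨t, ?_, hb⟩
      have h3 := ht.n_bnd _ _ τ t hg0 hn
      omega
    · rw [G_gt hxy] at hr
      obtain ⟨t, hm, hf⟩ := mr_inl hr
      obtain ⟨s, hs, hs'⟩ := hF.bnd _ _ t (Or.inl hxy.ne) r hf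
      refine ⟨-s, ?_, by rw [ht.b_neg]; exact hs'⟩
      rw [show σ (ofLex p).2 - (ι τ + σ (ofLex q).2) =
        ι (-τ) + σ (ofLex p).2 - σ (ofLex q).2 by rw [map_neg]; abel] at hm
      have h1 := ht.N_add (s - t) (t - -τ)
      have h3 := ht.m_bnd _ _ (-τ) t hm
      have h5 := ht.N_neg (-s - τ)
      rw [show s - t + (t - -τ) = -(-s - τ) by abel] at h1
      omega

end

/-- The iterated colouring. -/
theorem exists_good {W : ℕ} {ι : Θ →+ Γ} {σ : Fin W → Γ} {b : Θ → ℕ} {nn : Γ → Γ → ℕ ⊕ Θ}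
    {mm : Γ → ℕ ⊕ Θ} {k : ℕ} {N : Θ → ℕ} {c : ℕ} (ht : Tmpl ι σ b nn mm k N c)
    (hN0 : N 0 = 0)
    (hb : ∀ s t, s ≠ 0 → t ≠ 0 → s + t ≠ 0 → ¬ (b s = b t ∧ b s = b (s + t))) (T : ℕ) :
    ∃ (X : Type) (_ : LinearOrder X) (_ : Fintype X) (F : X → X → Θ → Col),
      Fintype.card X = W ^ T ∧ Good b N k (c * T) T F := by
  induction T with
  | zero =>
    refine ⟨Unit, inferInstance, inferInstance, fun _ _ τ => inl (b τ), by simp, ?_⟩
    refine ⟨?_, ?_, ?_, ?_, ?_⟩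
    · intro x y τ _
      simp [ht.b_neg]
    · intro x τ _
      rfl
    · intro x y z τ₁ τ₂ h1 h2 h3
      simp only [ne_eq, not_true_eq_false, false_or] at h1 h2 h3
      simp only [Sum.inl.injEq]
      exact hb _ _ h1 h2 h3
    · intro x y τ _ j i h
      simp at h
    · intro x y τ _ r h
      simp only [Sum.inl.injEq] at h
      exact ⟨τ, by simp [hN0], h⟩
  | succ T ih =>
    obtain ⟨X, _, _, F, hc, hF⟩ := ih
    refine ⟨X ×ₗ Fin W, inferInstance, inferInstanceAs (Fintype (X × Fin W)),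
      F' ι σ nn mm b T F, ?_, ?_⟩
    · have : Fintype.card (X × Fin W) = W ^ (T + 1) := by
        rw [Fintype.card_prod, hc, Fintype.card_fin, pow_succ]
      exact this
    · have := Good.step ht hF
      rw [show c * (T + 1) = c * T + c by ring]
      exact this

end Pool.Agent.TriGrow.P4
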