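import Pool.Agent.TriGrow.Cert118

/-!
# The template of `Cert118` satisfies all conditions
-/

namespace Pool.Agent.TriGrow.Cert118

open Sum

lemma res_lt (g : Gam) : res g < 118 := by unfold res; omega

lemma res_add (g h : Gam) : res (g + h) = (res g + res h) % 118 := by
  unfold res
  simp only [Prod.fst_add, Prod.snd_add]
  omega

lemma res_neg (g : Gam) : res (-g) = (118 - res g) % 118 := by
  unfold res
  simp only [Prod.fst_neg, Prod.snd_neg]
  omega

lemma res_zero : res 0 = 0 := by decide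

/-- The shift group: vectors of residue 0. -/
def TT : AddSubgroup Gam where
  carrier := {g | res g = 0}
  add_mem' := by
    intro a b ha hb
    simp only [Set.mem_ofPred_eq] at *
    rw [res_add, ha, hb]
  zero_mem' := res_zero
  neg_mem' := by
    intro a ha
    simp only [Set.mem_ofPred_eq] at *
    rw [res_neg, ha]

lemma mem_TT {g : Gam} : g ∈ TT ↔ res g = 0 := Iff.rfl

lemma ty_le (r : ℕ) : ty r ≤ 5 := by
  unfold ty; split_ifs <;> omega

lemma ty_neg (g : Gam) : ty (res (-g)) = tneg (ty (res g)) := by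
  rw [res_neg]; exact (chk_neg _ (res_lt g)).1

lemma gam_neg (g : Gam) (h : 3 ≤ ty (res g)) : gam (res (-g)) = - gam (res g) := by
  rw [res_neg]; exact (chk_neg _ (res_lt g)).2 h

lemma eL_vec {g : Gam} (h : eL g < 4) : ∃ p < 125, g = vec p := by
  unfold eL at h
  split_ifs at h with hc
  · obtain ⟨h0, h1, h2, h3, h4, h5, h6⟩ := hc
    obtain ⟨x, y, z, w⟩ := g
    simp only at h0 h1 h2 h3 h4 h5 h6
    refine ⟨((x + 2) + 5 * (y + 2) + 25 * (z + 2)).toNat, by omega, ?_⟩
    unfold vec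
    refine Prod.ext ?_ (Prod.ext ?_ (Prod.ext ?_ ?_)) <;> simp only <;> omega
  · omega

lemma eL_neg {g : Gam} (h : eL g < 4) : eL (-g) = eL g := by
  obtain ⟨p, hp, rfl⟩ := eL_vec h
  exact chk_eneg p hp

lemma eL_neg' {g : Gam} (h : ¬ eL g < 4) : ¬ eL (-g) < 4 := by
  intro h'
  apply h
  rw [← neg_neg g, eL_neg h']
  exact h'

lemma eL_w {g : Gam} (h : eL g < 4) : g.2.2.2 = 0 := by
  obtain ⟨p, hp, rfl⟩ := eL_vec h
  rfl

lemma nl_neg (g : Gam) : nl (-g) = nl g := by
  by_cases h : eL g < 4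
  · unfold nl
    rw [eL_neg h]
    simp [h]
  · unfold nl
    rw [if_neg h, if_neg (eL_neg' h), ty_neg]
    have := ty_le (res g)
    simp only [Prod.snd_neg]
    unfold dl tneg
    split_ifs <;> omega

lemma nl_le (g : Gam) : nl g ≤ 4 := by
  unfold nl
  split_ifs with h
  · omega
  · unfold dl
    split_ifs <;> omega

/-- Structure of an ordinary label: exceptional, or default. -/
lemma nl_cases {g : Gam} (h : nl g < 4) :
    (eL g < 4 ∧ nl g = eL g) ∨
    (¬ eL g < 4 ∧ ((ty (res g) < 3 ∧ nl g = ty (res g)) ∨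
      (ty (res g) = 4 ∧ nl g = 3 ∧ 1 ≤ g.2.2.2) ∨ (ty (res g) = 5 ∧ nl g = 3 ∧ g.2.2.2 ≤ -1))) := by
  by_cases he : eL g < 4
  · left
    refine ⟨he, ?_⟩
    unfold nl; rw [if_pos he]
  · right
    refine ⟨he, ?_⟩
    have h5 := ty_le (res g)
    have hn : nl g = dl (ty (res g)) g.2.2.2 := by unfold nl; rw [if_neg he]
    rw [hn] at h ⊢
    unfold dl at h ⊢
    split_ifs at h ⊢ <;> omega

/-- Structure of a special label. -/
lemma nl_spec {g : Gam} (h : ¬ nl g < 4) :
    ¬ eL g < 4 ∧ (ty (res g) = 3 ∨ (ty (res g) = 4 ∧ g.2.2.2 ≤ 0) ∨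
      (ty (res g) = 5 ∧ 0 ≤ g.2.2.2)) := by
  by_cases he : eL g < 4
  · exfalso
    apply h
    unfold nl; rw [if_pos he]; exact he
  · refine ⟨he, ?_⟩
    have h5 := ty_le (res g)
    have hn : nl g = dl (ty (res g)) g.2.2.2 := by unfold nl; rw [if_neg he]
    rw [hn] at h
    unfold dl at h
    split_ifs at h <;> omega

/-- two exceptional vectors -/
lemma core_ee {u v w : Gam} (h : u + v + w = 0) (hw : w ≠ 0) (hu : eL u < 4) (hv : eL v < 4)
    (h1 : nl v = nl u) (h2 : nl w = nl u) : False := by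
  have e1 : nl u = eL u := by unfold nl; rw [if_pos hu]
  have e2 : nl v = eL v := by unfold nl; rw [if_pos hv]
  obtain ⟨p, hp, rfl⟩ := eL_vec hu
  obtain ⟨q, hq, rfl⟩ := eL_vec hv
  have hs : w = -(vec p + vec q) := by
    rw [eq_comm, neg_eq_iff_add_eq_zero]; exact h
  refine chk_ee p hp hu q hq (by rw [← e2, h1, e1]) ?_ ?_
  · intro h0
    apply hw
    rw [hs, h0, neg_zero]
  · rw [← nl_neg, ← hs, h2, e1]

/-- one exceptional vector -/
lemma core_e {u v w : Gam} (h : u + v + w = 0) (hu : eL u < 4) (hv : ¬ eL v < 4)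
    (hw : ¬ eL w < 4) (h1 : nl v = nl u) (h2 : nl w = nl u) : False := by
  have e1 : nl u = eL u := by unfold nl; rw [if_pos hu]
  have hw' : w = -(u + v) := by rw [eq_comm, neg_eq_iff_add_eq_zero]; exact h
  have hu0 := eL_w hu
  obtain ⟨p, hp, rfl⟩ := eL_vec hu
  have r1 : res (-w) = (res (vec p) + res v) % 118 := by rw [hw', neg_neg, res_add]
  have r2 := ty_neg w
  have hsum : (vec p).2.2.2 + v.2.2.2 + w.2.2.2 = 0 := by
    have := congrArg (fun g : Gam => g.2.2.2) h
    simpa using this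
  have hv4 : nl v < 4 := by rw [h1, e1]; exact hu
  have hw4 : nl w < 4 := by rw [h2, e1]; exact hu
  have hrv := res_lt v
  rcases nl_cases hv4 with ⟨h', _⟩ | ⟨_, hv'⟩
  · exact hv h'
  rcases nl_cases hw4 with ⟨h', _⟩ | ⟨_, hw''⟩
  · exact hw h'
  rcases hv' with ⟨a1, a2⟩ | ⟨a1, a2, a3⟩ | ⟨a1, a2, a3⟩ <;>
    rcases hw'' with ⟨b1, b2⟩ | ⟨b1, b2, b3⟩ | ⟨b1, b2, b3⟩ <;> try omega
  · refine chk_ecls p hp (by omega) (res v) hrv (by omega) ?_
    rw [← r1, r2]
    unfold tneg
    split_ifs <;> omega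
  · refine (chk_e3 p hp (by omega) (res v) hrv).2 a1 ?_
    rw [← r1, r2, b1]
    rfl
  · refine (chk_e3 p hp (by omega) (res v) hrv).1 a1 ?_
    rw [← r1, r2, b1]
    rfl

/-- no exceptional vector -/
lemma core_n {u v w : Gam} (h : u + v + w = 0) (hu : ¬ eL u < 4) (hv : ¬ eL v < 4)
    (hw : ¬ eL w < 4) (h0 : nl u < 4) (h1 : nl v = nl u) (h2 : nl w = nl u) : False := by
  have hw' : w = -(u + v) := by rw [eq_comm, neg_eq_iff_add_eq_zero]; exact h
  have hv' : v = -(u + w) := by
    rw [eq_comm, neg_eq_iff_add_eq_zero, ← h]; abel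
  have hu' : u = -(v + w) := by
    rw [eq_comm, neg_eq_iff_add_eq_zero, ← h]; abel
  have rw1 : res (-w) = (res u + res v) % 118 := by rw [hw', neg_neg, res_add]
  have rv1 : res (-v) = (res u + res w) % 118 := by rw [hv', neg_neg, res_add]
  have ru1 : res (-u) = (res v + res w) % 118 := by rw [hu', neg_neg, res_add]
  have tw := ty_neg w
  have tv := ty_neg v
  have tu := ty_neg u
  rw [rw1] at tw
  rw [rv1] at tv
  rw [ru1] at tu
  have hsum : u.2.2.2 + v.2.2.2 + w.2.2.2 = 0 := by
    have := congrArg (fun g : Gam => g.2.2.2) h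
    simpa using this
  have hv4 : nl v < 4 := by omega
  have hw4 : nl w < 4 := by omega
  have c1 := chk_cls (res u) (res_lt u) (res v) (res_lt v)
  have c2 := chk_cls (res u) (res_lt u) (res w) (res_lt w)
  have c3 := chk_cls (res v) (res_lt v) (res w) (res_lt w)
  rcases nl_cases h0 with ⟨h', _⟩ | ⟨_, a⟩
  · exact hu h'
  rcases nl_cases hv4 with ⟨h', _⟩ | ⟨_, a'⟩
  · exact hv h'
  rcases nl_cases hw4 with ⟨h', _⟩ | ⟨_, a''⟩
  · exact hw h'
  unfold tneg at tw tv tu
  rcases a with ⟨a1, a2⟩ | ⟨a1, a2, a3⟩ | ⟨a1, a2, a3⟩ <;>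
    rcases a' with ⟨b1, b2⟩ | ⟨b1, b2, b3⟩ | ⟨b1, b2, b3⟩ <;>
    rcases a'' with ⟨d1, d2⟩ | ⟨d1, d2, d3⟩ | ⟨d1, d2, d3⟩ <;> try omega
  · have := c1 (by omega) (by omega)
    split_ifs at tw <;> omega
  · have := c1 (by omega) (by omega)
    rw [d1] at tw
    simp at tw
    omega
  · have := c2 (by omega) (by omega)
    rw [b1] at tv
    simp at tv
    omega
  · have := c3 (by omega) (by omega)
    rw [a1] at tu
    simp at tu
    omega
  · have := c3 (by omega) (by omega)
    rw [a1] at tu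
    simp at tu
    omega
  · have := c2 (by omega) (by omega)
    rw [b1] at tv
    simp at tv
    omega
  · have := c1 (by omega) (by omega)
    rw [d1] at tw
    simp at tw
    omega

lemma core {u v w : Gam} (h : u + v + w = 0) (hu : u ≠ 0) (hv : v ≠ 0) (hw : w ≠ 0)
    (h0 : nl u < 4) (h1 : nl v = nl u) (h2 : nl w = nl u) : False := by
  by_cases eu : eL u < 4 <;> by_cases ev : eL v < 4 <;> by_cases ew : eL w < 4
  · exact core_ee h hw eu ev h1 h2
  · exact core_ee h hw eu ev h1 h2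
  · exact core_ee (u := u) (v := w) (w := v) (by rw [← h]; abel) hv eu ew h2 h1
  · exact core_e h eu ev ew h1 h2
  · exact core_ee (u := v) (v := w) (w := u) (by rw [← h]; abel) hu ev ew (by omega) (by omega)
  · exact core_e (u := v) (v := u) (w := w) (by rw [← h]; abel) ev eu ew (by omega) (by omega)
  · exact core_e (u := w) (v := u) (w := v) (by rw [← h]; abel) ew eu ev (by omega) (by omega)
  · exact core_n h eu ev ew h0 h1 h2

lemma n_inl {g : Gam} {i : Fin 4} (h : n g = inl i) : nl g = i := by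
  unfold n at h
  split_ifs at h with hc
  · simp only [Sum.inl.injEq] at h
    rw [← h]

lemma n_inr {g t : Gam} (h : n g = inr t) : ¬ nl g < 4 ∧ t = g - gam (res g) := by
  unfold n at h
  split_ifs at h with hc
  · simp only [Sum.inr.injEq] at h
    exact ⟨hc, h.symm⟩

lemma m_inl {g : Gam} {i : Fin 4} (h : m g = inl i) : ml g = i := by
  unfold m at h
  split_ifs at h with hc
  · simp only [Sum.inl.injEq] at h
    rw [← h]

lemma m_inr {g t : Gam} (h : m g = inr t) : ¬ ml g < 4 ∧ t = g - gam (res g) := by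
  unfold m at h
  split_ifs at h with hc
  · simp only [Sum.inr.injEq] at h
    exact ⟨hc, h.symm⟩

lemma ml_spec {g : Gam} (h : ¬ ml g < 4) : ty (res g) = 3 ∨ ty (res g) = 4 := by
  have := ty_le (res g)
  unfold ml at h
  split_ifs at h <;> omega

lemma ml_ord {g : Gam} {i : ℕ} (h : ml g = i) (hi : i < 4) :
    (ty (res g) < 3 ∧ ty (res g) = i) ∨ (ty (res g) = 5 ∧ i = 3) := by
  have := ty_le (res g)
  unfold ml at h
  split_ifs at h <;> omega

lemma sub_gam_mem {g : Gam} (h : 3 ≤ ty (res g)) : g - gam (res g) ∈ TT := by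
  rw [mem_TT, sub_eq_add_neg, res_add, res_neg, (chk_gam _ (res_lt g) h).1]
  have := res_lt g
  omega

lemma N_neg (g : Gam) : N (-g) = N g := by
  unfold N
  simp

lemma N_add (g h : Gam) : N (g + h) ≤ N g + N h := by
  have h1 := Int.natAbs_add_le g.1 h.1
  have h2 := Int.natAbs_add_le g.2.1 h.2.1
  have h3 := Int.natAbs_add_le g.2.2.1 h.2.2.1
  have h4 := Int.natAbs_add_le g.2.2.2 h.2.2.2
  unfold N
  simp only [Prod.fst_add, Prod.snd_add]
  generalize (g.1 + h.1).natAbs = a1 at *
  generalize (g.2.1 + h.2.1).natAbs = a2 at *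
  generalize (g.2.2.1 + h.2.2.1).natAbs = a3 at *
  generalize (g.2.2.2 + h.2.2.2).natAbs = a4 at *
  refine max_le (max_le ?_ ?_) (max_le ?_ ?_)
  · exact h1.trans (add_le_add (le_max_of_le_left (le_max_left _ _))
      (le_max_of_le_left (le_max_left _ _)))
  · exact h2.trans (add_le_add (le_max_of_le_left (le_max_right _ _))
      (le_max_of_le_left (le_max_right _ _)))
  · exact h3.trans (add_le_add (le_max_of_le_right (le_max_left _ _))
      (le_max_of_le_right (le_max_left _ _)))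
  · exact h4.trans (add_le_add (le_max_of_le_right (le_max_right _ _))
      (le_max_of_le_right (le_max_right _ _)))

lemma b_neg (t : Gam) : b (-t) = b t := by
  unfold b
  simp only [Prod.snd_neg, neg_neg]
  have hl : lvl (-t) = lvl t := by
    unfold lvl
    simp
  rw [hl]
  split_ifs <;> first | rfl | omega

lemma cls_lt (g : Gam) : cls g < 27 := by
  unfold cls; omega

lemma lvl_add {s t : Gam} (hs : s ≠ 0) (ht : t ≠ 0) (hst : s + t ≠ 0) (h1 : lvl s = lvl t)
    (h2 : lvl s = lvl (s + t)) : False := by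
  obtain ⟨x, y, z, w⟩ := s
  obtain ⟨x', y', z', w'⟩ := t
  have key : ∀ c c' : ℤ, c ≠ 0 → c' ≠ 0 → c + c' ≠ 0 → Nat.log 2 c.natAbs = Nat.log 2 c'.natAbs →
      Nat.log 2 c.natAbs = Nat.log 2 (c + c').natAbs → False := by
    intro c c' h0 h0' h0'' e1 e2
    have a1 := Nat.pow_log_le_self 2 (Int.natAbs_ne_zero.2 h0)
    have a2 := Nat.lt_pow_succ_log_self (b := 2) (by norm_num) c.natAbs
    have b1 := Nat.pow_log_le_self 2 (Int.natAbs_ne_zero.2 h0')
    have b2 := Nat.lt_pow_succ_log_self (b := 2) (by norm_num) c'.natAbs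
    have c1 := Nat.pow_log_le_self 2 (Int.natAbs_ne_zero.2 h0'')
    have c2 := Nat.lt_pow_succ_log_self (b := 2) (by norm_num) (c + c').natAbs
    rw [← e1] at b1 b2
    rw [← e2] at c1 c2
    rw [pow_succ] at a2 b2 c2
    generalize 2 ^ Nat.log 2 c.natAbs = Q at *
    omega
  unfold lvl at h1 h2
  simp only [Prod.mk_add_mk, ne_eq, ite_not] at h1 h2
  by_cases hx : x = 0
  · by_cases hx' : x' = 0
    · subst hx hx'
      simp only [add_zero, if_true] at h1 h2
      by_cases hy : y = 0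
      · by_cases hy' : y' = 0
        · subst hy hy'
          simp only [add_zero, if_true] at h1 h2
          by_cases hz : z = 0
          · by_cases hz' : z' = 0
            · subst hz hz'
              simp only [add_zero, if_true] at h1 h2
              have hw : w ≠ 0 := fun h => hs (by rw [h]; rfl)
              have hw' : w' ≠ 0 := fun h => ht (by rw [h]; rfl)
              have hw'' : w + w' ≠ 0 := fun h => hst (by simp [h])
              exact key w w' hw hw' hw'' (by omega) (by omega)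
            · simp only [hz, hz', if_true, if_false] at h1
              omega
          · by_cases hz' : z' = 0
            · simp only [hz, hz', if_true, if_false] at h1
              omega
            · by_cases hz'' : z + z' = 0
              · simp only [hz, hz'', if_true, if_false] at h2
                omega
              · simp only [hz, hz', hz'', if_false] at h1 h2
                exact key z z' hz hz' hz'' (by omega) (by omega)
        · simp only [hy, hy', if_true, if_false] at h1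
          split_ifs at h1 <;> omega
      · by_cases hy' : y' = 0
        · simp only [hy, hy', if_true, if_false] at h1
          split_ifs at h1 <;> omega
        · by_cases hy'' : y + y' = 0
          · simp only [hy, hy'', if_true, if_false] at h2
            split_ifs at h2 <;> omega
          · simp only [hy, hy', hy'', if_false] at h1 h2
            exact key y y' hy hy' hy'' (by omega) (by omega)
    · simp only [hx, hx', if_true, if_false] at h1
      split_ifs at h1 <;> omega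
  · by_cases hx' : x' = 0
    · simp only [hx, hx', if_true, if_false] at h1
      split_ifs at h1 <;> omega
    · by_cases hx'' : x + x' = 0
      · simp only [hx, hx'', if_true, if_false] at h2
        split_ifs at h2 <;> omega
      · simp only [hx, hx', hx'', if_false] at h1 h2
        exact key x x' hx hx' hx'' (by omega) (by omega)

lemma b_tri (s t : Gam) (hs : s ≠ 0) (ht : t ≠ 0) (hst : s + t ≠ 0) :
    ¬ (b s = b t ∧ b s = b (s + t)) := by
  rintro ⟨h1, h2⟩
  have c1 := cls_lt s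
  have c2 := cls_lt (-s)
  have c3 := cls_lt t
  have c4 := cls_lt (-t)
  have c5 := cls_lt (s + t)
  have c6 := cls_lt (-(s + t))
  have hsum : (s + t).2.2.2 = s.2.2.2 + t.2.2.2 := rfl
  unfold b at h1 h2
  split_ifs at h1 h2 <;> try omega
  exact lvl_add hs ht hst (by omega) (by omega)

lemma b_lt (t : Gam) : b t < 27 + 4 * (Nat.log 2 (N t) + 1) := by
  have hx : t.1.natAbs ≤ N t := by unfold N; omega
  have hy : t.2.1.natAbs ≤ N t := by unfold N; omega
  have hz : t.2.2.1.natAbs ≤ N t := by unfold N; omega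
  have hw : t.2.2.2.natAbs ≤ N t := by unfold N; omega
  have lx := Nat.log_mono_right (b := 2) hx
  have ly := Nat.log_mono_right (b := 2) hy
  have lz := Nat.log_mono_right (b := 2) hz
  have lw := Nat.log_mono_right (b := 2) hw
  have c1 := cls_lt t
  have c2 := cls_lt (-t)
  unfold b lvl
  split_ifs <;> omega

lemma n_mem {g t : Gam} (hg : g ≠ 0) (h : n g = inr t) : t ∈ TT ∧ t ≠ 0 := by
  obtain ⟨h1, h2⟩ := n_inr h
  obtain ⟨he, h3⟩ := nl_spec h1
  have hty : 3 ≤ ty (res g) := by omega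
  refine ⟨by rw [h2]; exact sub_gam_mem hty, ?_⟩
  intro h0
  have hgg : g = gam (res g) := by
    rw [h0] at h2
    exact (sub_eq_zero.1 h2.symm)
  have hw : g.2.2.2 = (gam (res g)).2.2.2 := congrArg (fun g : Gam => g.2.2.2) hgg
  obtain ⟨_, _, w3, w4, w5⟩ := chk_gam (res g) (res_lt g) hty
  rcases h3 with h3 | h3 | h3
  · by_cases hr : res g = 0
    · apply hg
      rw [hgg, hr]
      exact chk_zero.2
    · apply he
      rw [hgg]
      exact chk_lift _ (res_lt g) h3 hr
  · have := w4 h3.1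
    omega
  · have := w5 h3.1
    omega

lemma cls_inj {s t : Gam} (h : cls s = cls t) :
    s.1 % 3 = t.1 % 3 ∧ s.2.1 % 3 = t.2.1 % 3 ∧ s.2.2.1 % 3 = t.2.2.1 % 3 := by
  unfold cls at h
  omega

lemma cls_fin1 {t₁ t₂ t₃ : Gam} (f1 : t₁.2.2.2 = -1) (f2 : t₂.2.2.2 = -1)
    (f3 : t₃.2.2.2 = 1) (hb1 : b t₁ = b t₂) (hb2 : b t₁ = b t₃) :
    (t₃ - t₁ - t₂).1 % 3 = 0 ∧ (t₃ - t₁ - t₂).2.1 % 3 = 0 ∧ (t₃ - t₁ - t₂).2.2.1 % 3 = 0 := by
  have e1 : b t₁ = cls t₁ := by unfold b; rw [if_pos f1]
  have e2 : b t₂ = cls t₂ := by unfold b; rw [if_pos f2]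
  have e3 : b t₃ = cls (-t₃) := by unfold b; rw [if_neg (by omega), if_pos f3]
  rw [e1, e2] at hb1
  rw [e1, e3] at hb2
  obtain ⟨a1, a2, a3⟩ := cls_inj hb1
  obtain ⟨b1, b2, b3⟩ := cls_inj hb2
  simp only [Prod.fst_neg, Prod.snd_neg] at b1 b2 b3
  simp only [Prod.fst_sub, Prod.snd_sub]
  refine ⟨?_, ?_, ?_⟩ <;> omega

lemma cls_fin2 {t₁ t₂ t₃ : Gam} (f1 : t₁.2.2.2 = 1) (f2 : t₂.2.2.2 = 1)
    (f3 : t₃.2.2.2 = -1) (hb1 : b t₁ = b t₂) (hb2 : b t₁ = b t₃) :
    (t₃ - t₁ - t₂).1 % 3 = 0 ∧ (t₃ - t₁ - t₂).2.1 % 3 = 0 ∧ (t₃ - t₁ - t₂).2.2.1 % 3 = 0 := by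
  have e1 : b t₁ = cls (-t₁) := by unfold b; rw [if_neg (by omega), if_pos f1]
  have e2 : b t₂ = cls (-t₂) := by unfold b; rw [if_neg (by omega), if_pos f2]
  have e3 : b t₃ = cls t₃ := by unfold b; rw [if_pos f3]
  rw [e1, e2] at hb1
  rw [e1, e3] at hb2
  obtain ⟨a1, a2, a3⟩ := cls_inj hb1
  obtain ⟨b1, b2, b3⟩ := cls_inj hb2
  simp only [Prod.fst_neg, Prod.snd_neg] at a1 a2 a3 b1 b2 b3
  simp only [Prod.fst_sub, Prod.snd_sub]
  refine ⟨?_, ?_, ?_⟩ <;> omega

theorem tmpl : Tmpl TT b n m N 1 where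
  n_neg_l := by
    intro g i _ h
    have h1 := n_inl h
    have h2 : nl (-g) < 4 := by rw [nl_neg, h1]; exact i.2
    unfold n
    rw [dif_pos h2]
    congr 1
    apply Fin.ext
    simp only
    rw [nl_neg, h1]
  n_neg_r := by
    intro g t _ h
    obtain ⟨h1, h2⟩ := n_inr h
    have h3 : ¬ nl (-g) < 4 := by rw [nl_neg]; exact h1
    unfold n
    rw [dif_neg h3, gam_neg g (by obtain ⟨_, h4 | h4 | h4⟩ := nl_spec h1 <;> omega), h2]
    congr 1
    abel
  n_mem := fun g t hg h => n_mem hg h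
  n_bnd := by
    intro g t _ h
    obtain ⟨h1, h2⟩ := n_inr h
    obtain ⟨he, h3⟩ := nl_spec h1
    have hty : 3 ≤ ty (res g) := by omega
    rw [h2, show g - gam (res g) - g = - gam (res g) by abel, N_neg]
    exact (chk_gam (res g) (res_lt g) hty).2.1
  n_ker := by
    intro t ht h0
    rw [mem_TT] at ht
    have h1 : ¬ eL t < 4 := by
      intro he
      obtain ⟨p, hp, rfl⟩ := eL_vec he
      exact chk_eker p hp he ht
    have h2 : nl t = 4 := by
      unfold nl
      rw [if_neg h1, ht, chk_zero.1]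
      rfl
    unfold n
    rw [dif_neg (by omega), ht, chk_zero.2, sub_zero]
  m_mem := by
    intro g t h
    obtain ⟨h1, h2⟩ := m_inr h
    rw [h2]
    exact sub_gam_mem (by have := ml_spec h1; omega)
  m_bnd := by
    intro g t h
    obtain ⟨h1, h2⟩ := m_inr h
    rw [h2, show g - gam (res g) - g = - gam (res g) by abel, N_neg]
    exact (chk_gam (res g) (res_lt g) (by have := ml_spec h1; omega)).2.1
  b_neg := b_neg
  N_neg := N_neg
  N_add := N_add
  mm_l := by
    intro g h i h1 h2 h3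
    have e1 := ml_ord (m_inl h1) i.2
    have e2 := ml_ord (m_inl h2) i.2
    have e3 := ml_ord (m_inl h3) i.2
    rw [res_add] at e3
    exact chk_cls (res g) (res_lt g) (res h) (res_lt h) (by omega) (by omega) (by omega)
  mm_r := by
    intro g h t₁ t₂ t₃ h1 h2 h3
    obtain ⟨a1, b1⟩ := m_inr h1
    obtain ⟨a2, b2⟩ := m_inr h2
    obtain ⟨a3, b3⟩ := m_inr h3
    have s1 := ml_spec a1
    have s2 := ml_spec a2
    have s3 := ml_spec a3
    rw [res_add] at s3 b3
    have := chk_add (res g) (res_lt g) (res h) (res_lt h) (by omega) s2 s3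
    rw [b1, b2, b3, this]
    abel
  nm_l := by
    intro g h i _ h1 h2 h3
    have e1 := n_inl h1
    have e2 := ml_ord (m_inl h2) i.2
    have e3 := ml_ord (m_inl h3) i.2
    rw [res_add] at e3
    have hi := i.2
    rcases nl_cases (g := g) (by rw [e1]; exact i.2) with ⟨he, he'⟩ | ⟨_, hd⟩
    · obtain ⟨p, hp, rfl⟩ := eL_vec he
      by_cases hi3 : (i : ℕ) = 3
      · exact (chk_e3 p hp (by omega) (res h) (res_lt h)).1 (by omega) (by omega)
      · exact chk_ecls p hp (by omega) (res h) (res_lt h) (by omega) (by omega)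
    · by_cases h4 : ty (res g) = 4
      · exact chk_PN (res g) (res_lt g) (res h) (res_lt h) (by omega) (by omega) (by omega)
      · exact chk_cls (res g) (res_lt g) (res h) (res_lt h) (by omega) (by omega) (by omega)
  nm_r := by
    intro g h t t₁ t₂ _ h1 h2 h3
    obtain ⟨a1, b1⟩ := n_inr h1
    obtain ⟨a2, b2⟩ := m_inr h2
    obtain ⟨a3, b3⟩ := m_inr h3
    have s1 := (nl_spec a1).2
    have s2 := ml_spec a2
    have s3 := ml_spec a3
    rw [res_add] at s3 b3
    have := chk_add (res g) (res_lt g) (res h) (res_lt h) (by omega) s2 s3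
    rw [b1, b2, b3, this]
    abel
  nn_l := by
    intro g h i hg hh hgh h1 h2 h3
    have e1 := n_inl h1
    have e2 := n_inl h2
    have e3 := n_inl h3
    refine core (u := g) (v := h) (w := -(g + h)) (by abel) hg hh (neg_ne_zero.2 hgh)
      (by rw [e1]; exact i.2) (by rw [e1, e2]) (by rw [nl_neg, e1, e3])
  nn_r := by
    rintro g h t₁ t₂ t₃ hg hh hgh h1 h2 h3 ⟨hb1, hb2⟩
    obtain ⟨a1, b1⟩ := n_inr h1
    obtain ⟨a2, b2⟩ := n_inr h2
    obtain ⟨a3, b3⟩ := n_inr h3
    have s1 := (nl_spec a1).2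
    have s2 := (nl_spec a2).2
    have s3 := (nl_spec a3).2
    rw [res_add] at s3 b3
    have l1 := res_lt g
    have l2 := res_lt h
    have l3 : (res g + res h) % 118 < 118 := Nat.mod_lt _ (by norm_num)
    have g1 := (chk_gam (res g) l1 (by omega)).2.2
    have g2 := (chk_gam (res h) l2 (by omega)).2.2
    have g3 := (chk_gam ((res g + res h) % 118) l3 (by omega)).2.2
    rcases chk_spec (res g) l1 (res h) l2 (by omega) (by omega) (by omega) with h4 | ⟨h4, h5⟩
    · have h6 : t₃ = t₁ + t₂ := by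
        rw [b1, b2, b3, h4]; abel
      refine b_tri t₁ t₂ (n_mem hg h1).2 (n_mem hh h2).2 ?_ ⟨hb1, ?_⟩
      · rw [← h6]; exact (n_mem hgh h3).2
      · rw [← h6]; exact hb2
    · have h6 : gam (res g) + gam (res h) - gam ((res g + res h) % 118) = t₃ - t₁ - t₂ := by
        rw [b1, b2, b3]; abel
      rw [h6] at h5
      have w1 : t₁.2.2.2 = g.2.2.2 - (gam (res g)).2.2.2 := by rw [b1]; rfl
      have w2 : t₂.2.2.2 = h.2.2.2 - (gam (res h)).2.2.2 := by rw [b2]; rfl
      have w3 : t₃.2.2.2 = g.2.2.2 + h.2.2.2 - (gam ((res g + res h) % 118)).2.2.2 := by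
        rw [b3]; rfl
      have w4 : (g + h).2.2.2 = g.2.2.2 + h.2.2.2 := rfl
      rw [w4] at s3
      apply h5
      rcases h4 with ⟨c1, c2, c3⟩ | ⟨c1, c2, c3⟩
      · have d1 := g1.2.1 c1
        have d2 := g2.2.1 c2
        have d3 := g3.2.2 c3
        exact cls_fin1 (by omega) (by omega) (by omega) hb1 hb2
      · have d1 := g1.2.2 c1
        have d2 := g2.2.2 c2
        have d3 := g3.2.1 c3
        exact cls_fin2 (by omega) (by omega) (by omega) hb1 hb2

end Pool.Agent.TriGrow.Cert118
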